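import Mathlib

/-! # The smoothing operator `A ↦ ∑ ℓ ^ (-j) A (ℓ ^ j s)` -/

set_option autoImplicit false

namespace Q190.OA

open Finset Filter Topology MeasureTheory

variable {E : Type*} [NormedAddCommGroup E] [NormedSpace ℝ E] [CompleteSpace E]

/-- `∑ ℓ ^ (-j) A (ℓ ^ j s)` -/
noncomputable def Sm (ℓ : ℕ) (A : ℝ → E) (s : ℝ) : E :=
  ∑' j : ℕ, (((ℓ : ℝ) ^ j)⁻¹) • A ((ℓ : ℝ) ^ j * s)

lemma w_summable {ℓ : ℕ} (hℓ : 2 ≤ ℓ) : Summable fun j : ℕ => (((ℓ : ℝ) ^ j)⁻¹) := by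
  have hl : (2 : ℝ) ≤ ℓ := by exact_mod_cast hℓ
  have : (fun j : ℕ => (((ℓ : ℝ) ^ j)⁻¹)) = fun j : ℕ => ((ℓ : ℝ)⁻¹) ^ j := by
    funext j; rw [inv_pow]
  rw [this]
  refine summable_geometric_of_lt_one (by positivity) ?_
  rw [inv_lt_one_iff₀]; right; linarith

lemma w_tsum {ℓ : ℕ} (hℓ : 2 ≤ ℓ) : ∑' j : ℕ, (((ℓ : ℝ) ^ j)⁻¹) ≤ 2 := by
  have hl : (2 : ℝ) ≤ ℓ := by exact_mod_cast hℓ
  have : (fun j : ℕ => (((ℓ : ℝ) ^ j)⁻¹)) = fun j : ℕ => ((ℓ : ℝ)⁻¹) ^ j := by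
    funext j; rw [inv_pow]
  have h1 : (ℓ : ℝ)⁻¹ ≤ 1 / 2 := by
    rw [inv_eq_one_div]
    exact one_div_le_one_div_of_le (by norm_num) hl
  rw [this, tsum_geometric_of_lt_one (by positivity) (by linarith)]
  rw [inv_le_comm₀ (by linarith) (by norm_num)]
  linarith

lemma Sm_summable {ℓ : ℕ} (hℓ : 2 ≤ ℓ) {a : ℕ → E} {C : ℝ} (h : ∀ j, ‖a j‖ ≤ C) :
    Summable fun j : ℕ => (((ℓ : ℝ) ^ j)⁻¹) • a j := by
  refine Summable.of_norm_bounded (g := fun j => (((ℓ : ℝ) ^ j)⁻¹) * C)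
    ((w_summable hℓ).mul_right C) fun j => ?_
  rw [norm_smul, norm_inv, norm_pow, Real.norm_natCast]
  exact mul_le_mul_of_nonneg_left (h j) (by positivity)

lemma Sm_norm {ℓ : ℕ} (hℓ : 2 ≤ ℓ) {a : ℕ → E} {C : ℝ} (h : ∀ j, ‖a j‖ ≤ C) :
    ‖∑' j : ℕ, (((ℓ : ℝ) ^ j)⁻¹) • a j‖ ≤ 2 * C := by
  have hC : 0 ≤ C := (norm_nonneg _).trans (h 0)
  have h1 : ∀ j, ‖(((ℓ : ℝ) ^ j)⁻¹) • a j‖ ≤ (((ℓ : ℝ) ^ j)⁻¹) * C := by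
    intro j
    rw [norm_smul, norm_inv, norm_pow, Real.norm_natCast]
    exact mul_le_mul_of_nonneg_left (h j) (by positivity)
  have h2 := tsum_of_norm_bounded ((w_summable hℓ).mul_right C).hasSum h1
  refine h2.trans ?_
  rw [tsum_mul_right]
  exact mul_le_mul_of_nonneg_right (w_tsum hℓ) hC

lemma Sm_bdd {ℓ : ℕ} (hℓ : 2 ≤ ℓ) {A : ℝ → E} {C : ℝ} (h : ∀ s, ‖A s‖ ≤ C) (s : ℝ) :
    ‖Sm ℓ A s‖ ≤ 2 * C := Sm_norm hℓ fun j => h _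

lemma shift_sum {ℓ : ℕ} (hℓ : 2 ≤ ℓ) {a : ℕ → E} {C : ℝ} (h : ∀ j, ‖a j‖ ≤ C) :
    ∑' j : ℕ, (((ℓ : ℝ) ^ j)⁻¹) • a j = a 0 + (ℓ : ℝ)⁻¹ • ∑' j : ℕ, (((ℓ : ℝ) ^ j)⁻¹) • a (j + 1) := by
  rw [(Sm_summable hℓ h).tsum_eq_zero_add, ← (Sm_summable hℓ fun j => h (j + 1)).tsum_const_smul]
  congr 1
  · simp
  · refine tsum_congr fun j => ?_
    rw [smul_smul, pow_succ, mul_inv, mul_comm]

lemma Sm_inv {ℓ : ℕ} (hℓ : 2 ≤ ℓ) {A V : ℝ → E} {C : ℝ} (h : ∀ s, ‖A s‖ ≤ C)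
    (hV : ∀ s, V s = A s - (ℓ : ℝ)⁻¹ • A (ℓ * s)) (s : ℝ) : Sm ℓ V s = A s := by
  unfold Sm
  have h1 : ∀ j : ℕ, (((ℓ : ℝ) ^ j)⁻¹) • V ((ℓ : ℝ) ^ j * s) =
      (((ℓ : ℝ) ^ j)⁻¹) • A ((ℓ : ℝ) ^ j * s) - (((ℓ : ℝ) ^ (j + 1))⁻¹) • A ((ℓ : ℝ) ^ (j + 1) * s) := by
    intro j
    rw [hV, smul_sub, smul_smul, pow_succ, mul_inv]
    congr 3
    ring
  simp_rw [h1]
  have h2 := Sm_summable hℓ (a := fun j => A ((ℓ : ℝ) ^ j * s)) fun j => h _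
  have h3 := (summable_nat_add_iff 1).2 h2
  rw [h2.tsum_sub h3, h2.tsum_eq_zero_add]
  simp

lemma Sm_clm {F : Type*} [NormedAddCommGroup F] [NormedSpace ℝ F] [CompleteSpace F]
    {ℓ : ℕ} (hℓ : 2 ≤ ℓ) {A : ℝ → E} {C : ℝ} (h : ∀ s, ‖A s‖ ≤ C) (L : E →L[ℝ] F) (s : ℝ) :
    Sm ℓ (fun u => L (A u)) s = L (Sm ℓ A s) := by
  unfold Sm
  rw [L.map_tsum (Sm_summable hℓ (a := fun j => A ((ℓ : ℝ) ^ j * s)) fun j => h _)]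
  refine tsum_congr fun j => ?_
  rw [map_smul]

lemma Sm_sum {ι : Type*} {ℓ : ℕ} (hℓ : 2 ≤ ℓ) (t : Finset ι) {A : ι → ℝ → E} {C : ℝ}
    (h : ∀ i s, ‖A i s‖ ≤ C) (s : ℝ) :
    Sm ℓ (fun u => ∑ i ∈ t, A i u) s = ∑ i ∈ t, Sm ℓ (A i) s := by
  unfold Sm
  rw [← Summable.tsum_finsetSum fun i _ =>
    Sm_summable hℓ (a := fun j => A i ((ℓ : ℝ) ^ j * s)) fun j => h i _]
  refine tsum_congr fun j => ?_
  rw [smul_sum]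

lemma Sm_int {Y : Type*} [MeasurableSpace Y] {ρ : Measure Y} [IsFiniteMeasure ρ]
    {ℓ : ℕ} (hℓ : 2 ≤ ℓ) {Φ : Y → ℝ → E} {C : ℝ} (h : ∀ y s, ‖Φ y s‖ ≤ C)
    (hm : ∀ s, AEStronglyMeasurable (fun y => Φ y s) ρ) (s : ℝ) :
    ∫ y, Sm ℓ (Φ y) s ∂ρ = Sm ℓ (fun u => ∫ y, Φ y u ∂ρ) s := by
  unfold Sm
  have hb : ∀ j : ℕ, ∀ y, ‖(((ℓ : ℝ) ^ j)⁻¹) • Φ y ((ℓ : ℝ) ^ j * s)‖ ≤ (((ℓ : ℝ) ^ j)⁻¹) * C := by
    intro j y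
    rw [norm_smul, norm_inv, norm_pow, Real.norm_natCast]
    exact mul_le_mul_of_nonneg_left (h y _) (by positivity)
  have hI : ∀ j : ℕ, Integrable (fun y => (((ℓ : ℝ) ^ j)⁻¹) • Φ y ((ℓ : ℝ) ^ j * s)) ρ := fun j =>
    Integrable.of_bound ((hm _).const_smul _) _ (Eventually.of_forall (hb j))
  rw [← integral_tsum_of_summable_integral_norm hI]
  · refine tsum_congr fun j => ?_
    rw [integral_smul]
  · refine Summable.of_nonneg_of_le (fun j => integral_nonneg fun y => norm_nonneg _) (fun j => ?_)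
      (((w_summable hℓ).mul_right C).mul_right (ρ.real Set.univ))
    have := integral_mono_of_nonneg (μ := ρ) (Eventually.of_forall fun y => norm_nonneg _)
      (integrable_const ((((ℓ : ℝ) ^ j)⁻¹) * C)) (Eventually.of_forall (hb j))
    rw [integral_const, smul_eq_mul] at this
    exact this.trans_eq (mul_comm _ _)

lemma Sm_lim {α : Type*} {l : Filter α} {ℓ : ℕ} (hℓ : 2 ≤ ℓ) {a : α → ℕ → E} {b : ℕ → E}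
    {C : ℝ} (h : ∀ᶠ n in l, ∀ j, ‖a n j‖ ≤ C) (hlim : ∀ j, Tendsto (fun n => a n j) l (𝓝 (b j))) :
    Tendsto (fun n => ∑' j : ℕ, (((ℓ : ℝ) ^ j)⁻¹) • a n j) l (𝓝 (∑' j : ℕ, (((ℓ : ℝ) ^ j)⁻¹) • b j)) := by
  refine tendsto_tsum_of_dominated_convergence (bound := fun j => (((ℓ : ℝ) ^ j)⁻¹) * C)
    ((w_summable hℓ).mul_right C) (fun j => (hlim j).const_smul _) ?_
  filter_upwards [h] with n hn j
  rw [norm_smul, norm_inv, norm_pow, Real.norm_natCast]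
  exact mul_le_mul_of_nonneg_left (hn j) (by positivity)

/-- the recursion `b K s = a K s + ℓ⁻¹ b (K / ℓ) (ℓ s)` -/
lemma rec_eq {ℓ : ℕ} (hℓ : 2 ≤ ℓ) {a b : ℕ → ℝ → E} {C : ℝ} (h : ∀ K s, ‖a K s‖ ≤ C)
    (ha0 : ∀ s, a 0 s = 0) (hb0 : ∀ s, b 0 s = 0)
    (hab : ∀ K s, b K s = a K s + (ℓ : ℝ)⁻¹ • b (K / ℓ) (ℓ * s)) (K : ℕ) :
    ∀ s, b K s = ∑' j : ℕ, (((ℓ : ℝ) ^ j)⁻¹) • a (K / ℓ ^ j) ((ℓ : ℝ) ^ j * s) := by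
  induction K using Nat.strong_induction_on with
  | _ K ih =>
    intro s
    rcases Nat.eq_zero_or_pos K with h0 | h0
    · subst h0
      rw [hb0]
      simp [ha0]
    · rw [shift_sum hℓ (a := fun j => a (K / ℓ ^ j) ((ℓ : ℝ) ^ j * s)) fun j => h _ _, hab,
        ih (K / ℓ) (Nat.div_lt_self h0 (by omega))]
      simp only [pow_zero, Nat.div_one, one_mul]
      congr 2
      refine tsum_congr fun j => ?_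
      rw [Nat.div_div_eq_div_mul, pow_succ, pow_succ]
      congr 2
      · rw [mul_comm]
      · ring

lemma rec_lim {ℓ : ℕ} (hℓ : 2 ≤ ℓ) {a b : ℕ → ℝ → E} {C : ℝ} (h : ∀ K s, ‖a K s‖ ≤ C)
    (ha0 : ∀ s, a 0 s = 0) (hb0 : ∀ s, b 0 s = 0)
    (hab : ∀ K s, b K s = a K s + (ℓ : ℝ)⁻¹ • b (K / ℓ) (ℓ * s)) {A : ℝ → E}
    (hA : ∀ s, Tendsto (fun K => a K s) atTop (𝓝 (A s))) :
    (∀ K s, ‖b K s‖ ≤ 2 * C) ∧ ∀ s, Tendsto (fun K => b K s) atTop (𝓝 (Sm ℓ A s)) := by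
  have h1 := rec_eq hℓ h ha0 hb0 hab
  refine ⟨fun K s => ?_, fun s => ?_⟩
  · rw [h1]
    exact Sm_norm hℓ fun j => h _ _
  · refine (Sm_lim hℓ (C := C) (Eventually.of_forall fun K j => h (K / ℓ ^ j) ((ℓ : ℝ) ^ j * s))
      fun j => ?_).congr fun K => (h1 K s).symm
    exact (hA _).comp (Nat.tendsto_div_const_atTop (by positivity))

end Q190.OA
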