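import Pool.Agent.Q190.OA.A
import Pool.Agent.Q190.OB.E

/-! # Davenport's expansion for the sawtooth -/

set_option autoImplicit false

namespace Q190.OA

open Finset Filter Topology MeasureTheory
open Q190.OB (sw sq TT od dav sw_abs sq_abs sq_eq sw_add_int)
open Pool.Agent.H373R2.T7 (muR muR_abs)

/-- the weighted Möbius sum of dilates of the sawtooth -/
noncomputable def DS (χ : ℕ → ℝ) (K : ℕ) (z : ℝ) : ℝ := ∑ k ∈ Icc 1 K, muR k * χ k * sw (k * z) / k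

/-- the multiples of `ℓ` are removed -/
noncomputable def rem (ℓ : ℕ) (χ : ℕ → ℝ) (k : ℕ) : ℝ := by
  classical
  exact if ℓ ∣ k then 0 else χ k

lemma sum_mult (F : ℕ → ℝ) (ℓ K : ℕ) (hℓ : 1 ≤ ℓ) :
    ∑ k ∈ (Icc 1 K).filter (fun k => ℓ ∣ k), F k = ∑ h ∈ Icc 1 (K / ℓ), F (ℓ * h) := by
  symm
  refine sum_bij (fun h _ => ℓ * h) ?_ ?_ ?_ ?_
  · intro h hh
    rw [mem_Icc] at hh
    rw [mem_filter, mem_Icc]
    refine ⟨⟨?_, ?_⟩, Dvd.intro h rfl⟩
    · exact Nat.one_le_iff_ne_zero.2 (Nat.mul_ne_zero (by omega) (by omega))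
    · calc ℓ * h ≤ ℓ * (K / ℓ) := Nat.mul_le_mul_left _ hh.2
        _ ≤ K := Nat.mul_div_le _ _
  · intro a _ b _ hab
    exact Nat.eq_of_mul_eq_mul_left hℓ hab
  · intro k hk
    rw [mem_filter, mem_Icc] at hk
    obtain ⟨⟨h1, h2⟩, h, rfl⟩ := hk
    refine ⟨h, ?_, rfl⟩
    rw [mem_Icc]
    refine ⟨?_, (Nat.le_div_iff_mul_le hℓ).2 (by rwa [mul_comm])⟩
    rcases Nat.eq_zero_or_pos h with h3 | h3
    · subst h3; omega
    · exact h3
  · intro h _; rfl

lemma muR_mul (ℓ h : ℕ) (hℓ : ℓ.Prime) : muR (ℓ * h) = if ℓ ∣ h then 0 else -muR h := by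
  unfold muR
  split_ifs with hd
  · obtain ⟨c, rfl⟩ := hd
    have : ¬ Squarefree (ℓ * (ℓ * c)) := by
      intro hs
      have := hs ℓ ⟨c, by ring⟩
      exact hℓ.one_lt.ne' (Nat.isUnit_iff.1 this)
    rw [ArithmeticFunction.moebius_eq_zero_of_not_squarefree this]
    simp
  · have hco : Nat.Coprime ℓ h := (Nat.Prime.coprime_iff_not_dvd hℓ).2 hd
    rw [ArithmeticFunction.isMultiplicative_moebius.map_mul_of_coprime hco,
      ArithmeticFunction.moebius_apply_prime hℓ]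
    push_cast
    ring

lemma DS_rem (χ : ℕ → ℝ) (ℓ : ℕ) (hℓ : ℓ.Prime) (hχ : ∀ k, ¬ ℓ ∣ k → χ (ℓ * k) = χ k) (K : ℕ) (z : ℝ) :
    DS χ K z = DS (rem ℓ χ) K z - (ℓ : ℝ)⁻¹ * DS (rem ℓ χ) (K / ℓ) (ℓ * z) := by
  classical
  unfold DS
  have h1 : ∑ k ∈ Icc 1 K, muR k * χ k * sw (k * z) / k =
      ∑ k ∈ Icc 1 K, muR k * rem ℓ χ k * sw (k * z) / k +
        ∑ k ∈ (Icc 1 K).filter (fun k => ℓ ∣ k), muR k * χ k * sw (k * z) / k := by
    rw [sum_filter, ← sum_add_distrib]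
    refine sum_congr rfl fun k _ => ?_
    unfold rem
    split_ifs <;> simp
  rw [h1, sum_mult _ ℓ K hℓ.one_le, sub_eq_add_neg, ← neg_mul, mul_sum]
  congr 1
  refine sum_congr rfl fun h hh => ?_
  rw [mem_Icc] at hh
  have hℓ0 : (ℓ : ℝ) ≠ 0 := by exact_mod_cast hℓ.ne_zero
  have hh0 : (h : ℝ) ≠ 0 := by exact_mod_cast (by omega : h ≠ 0)
  rw [muR_mul ℓ h hℓ]
  unfold rem
  have e : ((ℓ * h : ℕ) : ℝ) * z = h * (ℓ * z) := by push_cast; ring
  rw [e]
  split_ifs with hd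
  · simp
  · rw [hχ h hd]
    push_cast
    field_simp

/-- the limit function -/
noncomputable def phi (z : ℝ) : ℝ := 1 / Real.pi * Real.sin (2 * Real.pi * z)

lemma phi_abs (z : ℝ) : |phi z| ≤ 1 := by
  unfold phi
  rw [abs_mul, abs_of_pos (by positivity : (0 : ℝ) < 1 / Real.pi)]
  have e1 := Real.abs_sin_le_one (2 * Real.pi * z)
  have e2 : 1 / Real.pi ≤ 1 := by
    rw [div_le_iff₀ Real.pi_pos]; linarith [Real.pi_gt_three]
  have e3 := abs_nonneg (Real.sin (2 * Real.pi * z))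
  have e4 : 0 < 1 / Real.pi := by positivity
  nlinarith

lemma TT_lim (z : ℝ) : Tendsto (fun K => TT K z) atTop (𝓝 (4 * phi z)) := by
  obtain ⟨C, hC, h⟩ := dav 1
  rw [Metric.tendsto_atTop]
  intro ε hε
  obtain ⟨K0, -, hK2, hK⟩ := Q190.OB.log_inv_small C hε 0
  refine ⟨K0, fun K hKK => ?_⟩
  have h1 := h K (hK2.trans hKK) z
  have e : 4 * phi z = 4 / Real.pi * Real.sin (2 * Real.pi * z) := by unfold phi; ring
  rw [Real.dist_eq, e]
  refine h1.trans_lt (lt_of_le_of_lt ?_ hK)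
  have h2 : 0 < Real.log K0 := Real.log_pos (by exact_mod_cast (by omega : 1 < K0))
  have h3 : Real.log K0 ≤ Real.log K := Real.log_le_log (by exact_mod_cast (by omega : 0 < K0))
    (by exact_mod_cast hKK)
  rw [pow_one, pow_one]
  exact div_le_div_of_nonneg_left hC.le h2 h3

lemma TT_bdd : ∃ C : ℝ, ∀ K z, |TT K z| ≤ C := by
  obtain ⟨C, hC, h⟩ := dav 1
  have h2 : 0 < Real.log (2 : ℕ) := Real.log_pos (by norm_num)
  refine ⟨4 + C / Real.log (2 : ℕ) + 1, fun K z => ?_⟩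
  have hp : 0 ≤ C / Real.log (2 : ℕ) := by positivity
  rcases (by omega : K = 0 ∨ K = 1 ∨ 2 ≤ K) with rfl | rfl | hK
  · unfold TT; simp; positivity
  · have : |TT 1 z| ≤ 1 := by
      unfold TT
      rw [Icc_self, sum_singleton, abs_div, abs_mul, sq_abs, mul_one]
      have := Q190.OB.mo_abs 1
      simpa using this
    linarith
  · have h1 := h K hK z
    have h3 := phi_abs z
    have e : 4 / Real.pi * Real.sin (2 * Real.pi * z) = 4 * phi z := by unfold phi; ring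
    rw [e] at h1
    have h4 : C / Real.log K ^ 1 ≤ C / Real.log (2 : ℕ) := by
      rw [pow_one]
      exact div_le_div_of_nonneg_left hC.le h2 (Real.log_le_log (by norm_num) (by exact_mod_cast hK))
    have h5 : TT K z = (TT K z - 4 * phi z) + 4 * phi z := by ring
    rw [h5]
    refine (abs_add_le _ _).trans ?_
    rw [abs_mul, abs_of_pos (by norm_num : (0 : ℝ) < 4)]
    linarith

lemma od_rem (k : ℕ) : rem 2 (fun _ => 1) k = od k := by
  unfold rem od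
  by_cases h : 2 ∣ k
  · rw [if_pos h, if_neg (by omega)]
  · rw [if_neg h, if_pos (by omega)]

lemma DS_triv (χ : ℕ → ℝ) (hχ : ∀ k, |χ k| ≤ 1) (K : ℕ) (z : ℝ) : |DS χ K z| ≤ K := by
  unfold DS
  refine (abs_sum_le_sum_abs _ _).trans ?_
  have h : ∀ k ∈ Icc 1 K, |muR k * χ k * sw (k * z) / k| ≤ 1 := by
    intro k hk
    have hk1 : (1 : ℝ) ≤ k := by exact_mod_cast (mem_Icc.1 hk).1
    rw [abs_div, abs_mul, abs_mul, abs_of_pos (by linarith : (0 : ℝ) < k), div_le_one (by linarith)]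
    have h1 := muR_abs k
    have h2 := hχ k
    have h3 := sw_abs (k * z)
    have h4 : |muR k| * |χ k| ≤ 1 := mul_le_one₀ h1 (abs_nonneg _) h2
    have h5 : |muR k| * |χ k| * |sw (k * z)| ≤ 1 := mul_le_one₀ h4 (abs_nonneg _) (by linarith)
    linarith
  refine (sum_le_sum h).trans ?_
  rw [sum_const, Nat.card_Icc, nsmul_eq_mul, Nat.add_sub_cancel, mul_one]

lemma TT_eq (K : ℕ) (z : ℝ) : TT K z = 4 * DS od K z - 2 * DS od K (2 * z) := by
  unfold TT DS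
  rw [mul_sum, mul_sum, ← sum_sub_distrib]
  refine sum_congr rfl fun k _ => ?_
  rw [sq_eq]
  have e : 2 * ((k : ℝ) * z) = k * (2 * z) := by ring
  rw [e]
  ring

lemma W_eq (K : ℕ) (z : ℝ) : DS od K z = ∑' j : ℕ, (((2 : ℕ) : ℝ) ^ j)⁻¹ • (TT K (((2 : ℕ) : ℝ) ^ j * z) / 4) := by
  have h := Sm_inv (le_refl 2) (A := fun s => DS od K s) (V := fun s => TT K s / 4) (C := K)
    (fun s => by rw [Real.norm_eq_abs]; exact DS_triv od Q190.OB.od_abs K s) (fun s => by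
      rw [TT_eq, smul_eq_mul]; push_cast; ring) z
  unfold Sm at h
  exact h.symm

lemma W_lim : (∃ C : ℝ, ∀ K z, |DS od K z| ≤ C) ∧
    ∀ z, Tendsto (fun K => DS od K z) atTop (𝓝 (Sm 2 phi z)) := by
  obtain ⟨C, hC⟩ := TT_bdd
  have hb : ∀ K z, ‖TT K z / 4‖ ≤ C / 4 := by
    intro K z
    rw [Real.norm_eq_abs, abs_div, abs_of_pos (by norm_num : (0 : ℝ) < 4)]
    exact div_le_div_of_nonneg_right (hC K z) (by norm_num)
  refine ⟨⟨2 * (C / 4), fun K z => ?_⟩, fun z => ?_⟩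
  · rw [W_eq, ← Real.norm_eq_abs]
    exact Sm_norm le_rfl fun j => hb _ _
  · have := Sm_lim (E := ℝ) (l := atTop) (le_refl 2) (a := fun K j => TT K (((2 : ℕ) : ℝ) ^ j * z) / 4)
      (b := fun j => phi (((2 : ℕ) : ℝ) ^ j * z)) (C := C / 4) (Eventually.of_forall fun K j => hb _ _)
      (fun j => by
        have := (TT_lim (((2 : ℕ) : ℝ) ^ j * z)).div_const 4
        rwa [mul_div_cancel_left₀ _ (by norm_num : (4 : ℝ) ≠ 0)] at this)
    unfold Sm
    exact this.congr fun K => (W_eq K z).symm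

theorem D_lim : (∃ C : ℝ, ∀ K z, |DS (fun _ => 1) K z| ≤ C) ∧
    ∀ z, Tendsto (fun K => DS (fun _ => 1) K z) atTop (𝓝 (phi z)) := by
  obtain ⟨⟨C, hC⟩, hl⟩ := W_lim
  have hod : rem 2 (fun _ => (1 : ℝ)) = od := funext od_rem
  have h1 : ∀ K z, DS (fun _ => 1) K z = DS od K z - (2 : ℝ)⁻¹ * DS od (K / 2) (2 * z) := by
    intro K z
    have := DS_rem (fun _ => 1) 2 Nat.prime_two (fun _ _ => rfl) K z
    rw [hod] at this
    push_cast at this
    exact this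
  refine ⟨⟨2 * C, fun K z => ?_⟩, fun z => ?_⟩
  · rw [h1]
    have h2 := hC K z
    have h3 := hC (K / 2) (2 * z)
    have h4 := abs_sub (DS od K z) ((2 : ℝ)⁻¹ * DS od (K / 2) (2 * z))
    rw [abs_mul, abs_of_pos (by norm_num : (0 : ℝ) < (2 : ℝ)⁻¹)] at h4
    have h5 := abs_nonneg (DS od (K / 2) (2 * z))
    linarith
  · have h2 := (hl z).sub (((hl (2 * z)).comp (Nat.tendsto_div_const_atTop
      (by norm_num : 2 ≠ 0))).const_mul (2 : ℝ)⁻¹)
    have h3 : Sm 2 phi z - (2 : ℝ)⁻¹ * Sm 2 phi (2 * z) = phi z := by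
      unfold Sm
      have := shift_sum (E := ℝ) (le_refl 2) (a := fun j => phi (((2 : ℕ) : ℝ) ^ j * z)) (C := 1)
        (fun j => by rw [Real.norm_eq_abs]; exact phi_abs _)
      rw [this]
      have e : ∀ j : ℕ, phi (((2 : ℕ) : ℝ) ^ (j + 1) * z) = phi (((2 : ℕ) : ℝ) ^ j * (2 * z)) := by
        intro j; congr 1; push_cast; ring
      simp_rw [e]
      simp
    rw [h3] at h2
    exact h2.congr fun K => (h1 K z).symm

end Q190.OA
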