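import Pool.Agent.Q190.OA.B

/-! # The Möbius sums for an invariant measure -/

set_option autoImplicit false

namespace Q190.OA

open Finset Filter Topology MeasureTheory
open Q190.OB (sw sq TT od dav sw_abs sq_abs sq_eq sw_add_int)
open Pool.Agent.H373R2.T7 (muR muR_abs)
open Pool.Agent.H807R2.Dav (ee norm_ee ee_add ee_int ee_pow ee_eq ee_zero)

/-- invariance under multiplication by `ℓ` modulo one -/
def Inv1 (ℓ : ℕ) (ρ : Measure ℝ) : Prop := ∀ g : ℝ → ℝ, Measurable g → (∀ x, g (x + 1) = g x) →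
  (∃ C, ∀ x, |g x| ≤ C) → ∫ x, g (ℓ * x) ∂ρ = ∫ x, g x ∂ρ

lemma sw_meas : Measurable sw := by
  unfold sw
  exact measurable_const.sub measurable_fract

lemma DS_meas (χ : ℕ → ℝ) (K : ℕ) : Measurable (DS χ K) := by
  unfold DS
  refine Finset.measurable_sum _ fun k _ => ?_
  exact ((sw_meas.comp (measurable_const.mul measurable_id)).const_mul _).div_const _

lemma DS_per (χ : ℕ → ℝ) (K : ℕ) (y : ℝ) : DS χ K (y + 1) = DS χ K y := by
  unfold DS
  refine sum_congr rfl fun k _ => ?_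
  have : (k : ℝ) * (y + 1) = k * y + ((k : ℤ) : ℝ) := by push_cast; ring
  rw [this, sw_add_int]

lemma shift_per {g : ℝ → ℝ} (hg : ∀ x, g (x + 1) = g x) (s : ℝ) (x : ℝ) : g (x + 1 - s) = g (x - s) := by
  rw [show x + 1 - s = (x - s) + 1 by ring, hg]

lemma inv_shift {ℓ : ℕ} {ρ : Measure ℝ} (hρ : Inv1 ℓ ρ) {g : ℝ → ℝ} (hm : Measurable g)
    (hp : ∀ x, g (x + 1) = g x) (hb : ∃ C, ∀ x, |g x| ≤ C) (s : ℝ) :
    ∫ x, g (ℓ * (x - s)) ∂ρ = ∫ x, g (x - ℓ * s) ∂ρ := by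
  have := hρ (fun x => g (x - ℓ * s)) (hm.comp (measurable_id.sub_const _))
    (fun x => shift_per hp _ x) (by obtain ⟨C, hC⟩ := hb; exact ⟨C, fun x => hC _⟩)
  rw [← this]
  refine integral_congr_ae (Eventually.of_forall fun x => ?_)
  simp only
  congr 1
  ring

lemma bdd_integrable {ρ : Measure ℝ} [IsFiniteMeasure ρ] {g : ℝ → ℝ} (hm : Measurable g)
    {C : ℝ} (hb : ∀ x, |g x| ≤ C) : Integrable g ρ :=
  Integrable.of_bound hm.aestronglyMeasurable C (Eventually.of_forall fun x => by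
    rw [Real.norm_eq_abs]; exact hb x)

/-- the integral of the Möbius sum -/
noncomputable def J (ρ : Measure ℝ) (χ : ℕ → ℝ) (K : ℕ) (s : ℝ) : ℝ := ∫ y, DS χ K (y - s) ∂ρ

lemma J_rec (ρ : Measure ℝ) [IsProbabilityMeasure ρ] (χ : ℕ → ℝ) (hχ1 : ∀ k, |χ k| ≤ 1) (ℓ : ℕ)
    (hℓ : ℓ.Prime) (hρ : Inv1 ℓ ρ) (hχ : ∀ k, ¬ ℓ ∣ k → χ (ℓ * k) = χ k) (K : ℕ) (s : ℝ) :
    J ρ (rem ℓ χ) K s = J ρ χ K s + (ℓ : ℝ)⁻¹ • J ρ (rem ℓ χ) (K / ℓ) (ℓ * s) := by
  unfold J
  have hr : ∀ k, |rem ℓ χ k| ≤ 1 := by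
    intro k; unfold rem; split_ifs
    · simp
    · exact hχ1 k
  have h1 : ∀ y, DS χ K (y - s) = DS (rem ℓ χ) K (y - s) -
      (ℓ : ℝ)⁻¹ * DS (rem ℓ χ) (K / ℓ) (ℓ * (y - s)) := fun y => DS_rem χ ℓ hℓ hχ K (y - s)
  simp_rw [h1]
  rw [integral_sub, integral_const_mul, inv_shift hρ (DS_meas _ _) (DS_per _ _)
    ⟨_, fun x => DS_triv _ hr _ x⟩, smul_eq_mul]
  · ring
  · exact bdd_integrable ((DS_meas _ _).comp (measurable_id.sub_const _)) fun x => DS_triv _ hr _ _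
  · exact (bdd_integrable ((DS_meas (rem ℓ χ) (K / ℓ)).comp ((measurable_id.sub_const s).const_mul _))
      fun x => DS_triv _ hr _ _).const_mul _

lemma J_zero (ρ : Measure ℝ) (χ : ℕ → ℝ) (s : ℝ) : J ρ χ 0 s = 0 := by
  unfold J DS
  simp

lemma phi_cont : Continuous phi := by
  unfold phi
  fun_prop

lemma J_one (ρ : Measure ℝ) [IsProbabilityMeasure ρ] :
    (∃ C, ∀ K s, ‖J ρ (fun _ => 1) K s‖ ≤ C) ∧
    ∀ s, Tendsto (fun K => J ρ (fun _ => 1) K s) atTop (𝓝 (∫ y, phi (y - s) ∂ρ)) := by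
  obtain ⟨⟨C, hC⟩, hl⟩ := D_lim
  refine ⟨⟨C, fun K s => ?_⟩, fun s => ?_⟩
  · unfold J
    have := norm_integral_le_of_norm_le_const (μ := ρ) (f := fun y => DS (fun _ => 1) K (y - s))
      (C := C) (Eventually.of_forall fun y => by rw [Real.norm_eq_abs]; exact hC K (y - s))
    simpa using this
  · unfold J
    refine tendsto_integral_of_dominated_convergence (fun _ => C) (fun K => ?_) (integrable_const _)
      (fun K => Eventually.of_forall fun y => ?_) (Eventually.of_forall fun y => hl (y - s))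
    · exact ((DS_meas _ _).comp (measurable_id.sub_const _)).aestronglyMeasurable
    · rw [Real.norm_eq_abs]; exact hC K (y - s)

/-- the generating function -/
noncomputable def Qf (p q : ℕ) (s : ℝ) : ℂ := Sm p (Sm q (fun u : ℝ => ee (-u))) s

/-- the indicator of the numbers coprime to `p q` -/
noncomputable def chi (p q : ℕ) : ℕ → ℝ := rem p (rem q (fun _ => 1))

lemma rem_abs (ℓ : ℕ) (χ : ℕ → ℝ) (h : ∀ k, |χ k| ≤ 1) (k : ℕ) : |rem ℓ χ k| ≤ 1 := by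
  unfold rem; split_ifs
  · simp
  · exact h k

lemma phi_ee (z : ℝ) : phi z = 1 / Real.pi * (ee z).im := by
  unfold phi
  rw [ee_eq, Complex.exp_ofReal_mul_I_im]

theorem J_lim (p q : ℕ) (hp : p.Prime) (hq : q.Prime) (hpq : p ≠ q) (ρ : Measure ℝ)
    [IsProbabilityMeasure ρ] (hρp : Inv1 p ρ) (hρq : Inv1 q ρ) (s : ℝ) :
    Tendsto (fun K => J ρ (chi p q) K s) atTop
      (𝓝 (1 / Real.pi * ((∫ y, ee y ∂ρ) * Qf p q s).im)) := by
  obtain ⟨⟨C, hC⟩, hl⟩ := J_one ρ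
  have h1 := rec_lim (E := ℝ) hq.two_le (a := J ρ (fun _ => 1)) (b := J ρ (rem q (fun _ => 1))) (C := C)
    hC (J_zero ρ _) (J_zero ρ _) (J_rec ρ (fun _ => 1) (fun _ => by simp) q hq hρq (fun _ _ => rfl)) hl
  have hχ : ∀ k, ¬ p ∣ k → rem q (fun _ => (1 : ℝ)) (p * k) = rem q (fun _ => 1) k := by
    intro k _
    unfold rem
    have : q ∣ p * k ↔ q ∣ k := by
      constructor
      · intro h
        rcases (Nat.Prime.dvd_mul hq).1 h with h2 | h2
        · exact absurd ((Nat.prime_dvd_prime_iff_eq hq hp).1 h2).symm hpq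
        · exact h2
      · exact fun h => h.mul_left p
    simp only [this]
  have h2 := rec_lim (E := ℝ) hp.two_le (a := J ρ (rem q (fun _ => 1))) (b := J ρ (chi p q)) (C := 2 * C)
    h1.1 (J_zero ρ _) (J_zero ρ _)
    (J_rec ρ (rem q (fun _ => 1)) (rem_abs q _ (fun _ => by simp)) p hp hρp hχ) h1.2
  have h3 := h2.2 s
  obtain ⟨L, hL⟩ : ∃ L : ℂ →L[ℝ] ℝ, L = (1 / Real.pi : ℝ) • (Complex.imCLM.comp
    (ContinuousLinearMap.mul ℝ ℂ (∫ y, ee y ∂ρ))) := ⟨_, rfl⟩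
  have hLv : ∀ v : ℂ, L v = 1 / Real.pi * ((∫ y, ee y ∂ρ) * v).im := by
    intro v; rw [hL]; simp
  have heeb : ∀ u : ℝ, ‖ee (-u)‖ ≤ 1 := fun u => (norm_ee _).le
  have e1 : (fun s => ∫ y, phi (y - s) ∂ρ) = fun s => L (ee (-s)) := by
    funext s
    rw [hLv]
    have h4 : ∀ y : ℝ, phi (y - s) = 1 / Real.pi * (ee y * ee (-s)).im := by
      intro y
      rw [phi_ee, ← ee_add]
      rfl
    simp_rw [h4]
    have h5 : Integrable (fun y : ℝ => ee y * ee (-s)) ρ :=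
      Integrable.of_bound ((Q190.OB.ee_cont.measurable.mul_const _).aestronglyMeasurable) 1
        (Eventually.of_forall fun y => by rw [norm_mul, norm_ee, norm_ee, mul_one])
    rw [integral_const_mul]
    congr 1
    have h6 := integral_im h5
    rw [integral_mul_const] at h6
    exact h6
  have e2 : Sm q (fun s => ∫ y, phi (y - s) ∂ρ) = fun s => L (Sm q (fun u => ee (-u)) s) := by
    rw [e1]
    funext s
    exact Sm_clm hq.two_le heeb L s
  rw [e2] at h3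
  have e3 := Sm_clm hp.two_le (A := Sm q (fun u : ℝ => ee (-u))) (C := 2 * 1)
    (fun s => Sm_bdd hq.two_le heeb s) L s
  rw [e3, hLv] at h3
  exact h3

end Q190.OA
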