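import Pool.Agent.Q190.OA.C

/-! # Right continuous functions with vanishing coefficients; the sawtooth -/

set_option autoImplicit false

namespace Q190.OA

open Finset Filter Topology MeasureTheory
open Q190.OB (sw sw_abs sw_add_int ee_cont bdd_int dilate)
open Pool.Agent.H807R2.Dav (ee norm_ee ee_add ee_int ee_pow ee_eq ee_zero)

/-- right continuity -/
def RC (f : ℝ → ℝ) : Prop := ∀ y, Tendsto f (𝓝[>] y) (𝓝 (f y))

theorem zero_of_coef (f : ℝ → ℝ) (hm : Measurable f) (C : ℝ) (hb : ∀ x, |f x| ≤ C)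
    (hp : ∀ x, f (x + 1) = f x) (hr : RC f)
    (hc : ∀ m : ℤ, ∫ y in (0 : ℝ)..1, (f y : ℂ) * ee (-m * y) = 0) (y : ℝ) : f y = 0 := by
  obtain ⟨D, hD⟩ : ∃ D : ℝ → ℂ, D = fun y => (f y : ℂ) := ⟨_, rfl⟩
  have hDmeas : Measurable D := by rw [hD]; exact Complex.measurable_ofReal.comp hm
  have hDb : ∀ y : ℝ, ‖D y‖ ≤ C := by
    intro y; rw [hD, Complex.norm_real, Real.norm_eq_abs]; exact hb y
  have hL2 : MemLp D 2 (volume.restrict (Set.Ioc (0 : ℝ) 1)) :=
    MemLp.of_bound hDmeas.aestronglyMeasurable _ (Eventually.of_forall hDb)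
  have hpars := hasSum_sq_fourierCoeffOn (zero_lt_one' ℝ) hL2
  have hzero : ∀ i : ℤ, ‖fourierCoeffOn (zero_lt_one' ℝ) D i‖ ^ 2 = 0 := by
    intro i
    rw [fourierCoeffOn_eq_integral]
    have h2 : ∀ y : ℝ, (fourier (-i) (y : AddCircle ((1 : ℝ) - 0)) : ℂ) • D y = D y * ee (-i * y) := by
      intro y
      rw [fourier_coe_apply, smul_eq_mul, mul_comm]
      congr 1
      unfold ee
      congr 1
      push_cast
      ring
    simp_rw [h2]
    rw [hD]
    simp only
    rw [hc i]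
    simp
  simp_rw [hzero] at hpars
  have hint0 := hpars.unique hasSum_zero
  rw [sub_zero, inv_one, one_smul, intervalIntegral.integral_of_le zero_le_one] at hint0
  have hsqint : Integrable (fun x => ‖D x‖ ^ 2) (volume.restrict (Set.Ioc (0 : ℝ) 1)) := by
    have := hL2.norm.integrable_sq
    exact this
  rw [integral_eq_zero_iff_of_nonneg (fun _ => by positivity) hsqint] at hint0
  have hae : ∀ᵐ x ∂(volume.restrict (Set.Ioc (0 : ℝ) 1)), D x = 0 := by
    filter_upwards [hint0] with x hx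
    simpa using hx
  rw [ae_restrict_iff' measurableSet_Ioc] at hae
  -- points in `[0, 1)`
  have hmain : ∀ y : ℝ, 0 ≤ y → y < 1 → f y = 0 := by
    intro y hy0 hy1
    by_contra hne
    have h3 : ∀ᶠ z in 𝓝[>] y, f z ≠ 0 := (hr y).eventually_ne hne
    have h5 : ∀ᶠ z in 𝓝[>] y, z ∈ Set.Ioo y 1 := Ioo_mem_nhdsGT hy1
    obtain ⟨u, hu, hus⟩ := mem_nhdsGT_iff_exists_Ioo_subset.1 (h3.and h5)
    have h6 : Set.Ioo y u ⊆ {x : ℝ | ¬ (x ∈ Set.Ioc (0 : ℝ) 1 → D x = 0)} := by
      intro z hz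
      obtain ⟨h7, h8⟩ := hus hz
      simp only [Set.mem_ofPred_eq]
      intro h9
      have h10 := h9 ⟨by linarith [h8.1], h8.2.le⟩
      rw [hD] at h10
      exact h7 (Complex.ofReal_eq_zero.1 h10)
    have h7 : volume (Set.Ioo y u) = 0 := measure_mono_null h6 hae
    rw [Real.volume_Ioo, ENNReal.ofReal_eq_zero] at h7
    have : y < u := hu
    linarith
  have hper : Function.Periodic f 1 := hp
  have h2 : f y = f (Int.fract y) := by
    have := hper.sub_int_mul_eq (x := y) ⌊y⌋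
    rw [mul_one] at this
    rw [← this]
    rfl
  rw [h2]
  exact hmain _ (Int.fract_nonneg y) (Int.fract_lt_one y)

lemma sw_RC : RC sw := by
  intro y
  have h0 := Int.fract_nonneg y
  have h1 := Int.fract_lt_one y
  have h2 := Int.self_sub_floor y
  have h3 : ∀ᶠ z in 𝓝[>] y, sw z = sw y - (z - y) := by
    have h4 : ∀ᶠ z in 𝓝[>] y, z ∈ Set.Ioo y (y + (1 - Int.fract y)) := Ioo_mem_nhdsGT (by linarith)
    filter_upwards [h4] with z hz
    have : Int.fract z = Int.fract y + (z - y) := by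
      rw [Int.fract_eq_iff]
      exact ⟨by linarith [hz.1], by linarith [hz.2], ⌊y⌋, by linarith⟩
    unfold sw
    rw [this]; ring
  have h5 : Tendsto (fun z : ℝ => sw y - (z - y)) (𝓝[>] y) (𝓝 (sw y)) := by
    have : Continuous fun z : ℝ => sw y - (z - y) := by fun_prop
    have h6 := (this.tendsto y).mono_left (nhdsWithin_le_nhds (s := Set.Ioi y))
    simpa using h6
  exact h5.congr' (h3.mono fun z hz => hz.symm)

lemma RC.comp_mul {f : ℝ → ℝ} (h : RC f) {ℓ : ℝ} (hℓ : 0 < ℓ) : RC (fun y => f (ℓ * y)) := by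
  intro y
  refine (h (ℓ * y)).comp (tendsto_nhdsWithin_iff.2 ⟨?_, ?_⟩)
  · have : Continuous fun z : ℝ => ℓ * z := by fun_prop
    exact (this.tendsto y).mono_left nhdsWithin_le_nhds
  · filter_upwards [self_mem_nhdsWithin] with z hz
    exact mul_lt_mul_of_pos_left hz hℓ

lemma RC.comp_sub {f : ℝ → ℝ} (h : RC f) (u : ℝ) : RC (fun y => f (y - u)) := by
  intro y
  refine (h (y - u)).comp (tendsto_nhdsWithin_iff.2 ⟨?_, ?_⟩)
  · have : Continuous fun z : ℝ => z - u := by fun_prop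
    exact (this.tendsto y).mono_left nhdsWithin_le_nhds
  · filter_upwards [self_mem_nhdsWithin] with z hz
    exact sub_lt_sub_right hz u

lemma sw_coef (m : ℤ) : ∫ y in (0 : ℝ)..1, (sw y : ℂ) * ee (-m * y) = 1 / (2 * Real.pi * Complex.I * m) := by
  have h := bernoulliFourierCoeff_eq (one_ne_zero) m
  unfold bernoulliFourierCoeff at h
  rw [fourierCoeffOn_eq_integral] at h
  simp only [Nat.factorial_one, Nat.cast_one, pow_one] at h
  have h1 : ∫ y in (0 : ℝ)..1, (sw y : ℂ) * ee (-m * y) =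
      -∫ x in (0 : ℝ)..1, (fourier (-m) (x : AddCircle ((1 : ℝ) - 0)) : ℂ) • ((bernoulliFun 1 x : ℝ) : ℂ) := by
    rw [← intervalIntegral.integral_neg]
    refine intervalIntegral.integral_congr_ae ?_
    have h2 : ∀ᵐ x : ℝ, x ≠ 1 := by
      rw [ae_iff]; simp
    filter_upwards [h2] with x hx hx1
    rw [Set.uIoc_of_le zero_le_one] at hx1
    have hfr : Int.fract x = x := Int.fract_eq_self.2 ⟨hx1.1.le, lt_of_le_of_ne hx1.2 hx⟩
    rw [bernoulliFun_one, fourier_coe_apply, smul_eq_mul]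
    unfold sw ee
    rw [hfr]
    have e : (2 * (Real.pi : ℂ) * Complex.I * ((-m : ℤ) : ℂ) * (x : ℂ) / (((1 : ℝ) - 0 : ℝ) : ℂ)) =
        2 * Real.pi * Complex.I * ((-m * x : ℝ) : ℂ) := by push_cast; ring
    rw [e]
    push_cast
    ring
  have e2 : ((1 : ℝ) / (1 - 0)) = 1 := by norm_num
  rw [e2, one_smul] at h
  rw [h1, h, neg_div, neg_neg]

end Q190.OA
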