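import Pool.Agent.Q190.OA.D

/-! # Vanishing of all orbit sums forces all invariant measures to integrate correctly -/

set_option autoImplicit false

namespace Q190.OA

open Finset Filter Topology MeasureTheory
open Q190.OB (sw sw_abs sw_add_int ee_cont bdd_int dilate)
open Pool.Agent.H807R2.Dav (ee norm_ee ee_add ee_int ee_pow ee_eq ee_zero)

/-- measurable, bounded, periodic and right continuous -/
structure Nice (g : ℝ → ℝ) (C : ℝ) : Prop where
  m : Measurable g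
  b : ∀ x, |g x| ≤ C
  per : ∀ x, g (x + 1) = g x
  rc : RC g

lemma per_nat {g : ℝ → ℝ} (h : ∀ x, g (x + 1) = g x) (n : ℕ) (x : ℝ) : g (x + n) = g x := by
  have := Function.Periodic.nat_mul (f := g) (c := 1) h n x
  rwa [mul_one] at this

lemma sw_nice : Nice sw (1 / 2) :=
  ⟨sw_meas, sw_abs, fun x => by have := sw_add_int x 1; rwa [Int.cast_one] at this, sw_RC⟩

/-- `g x - ℓ⁻¹ g (ℓ x)` -/
noncomputable def Dr (ℓ : ℕ) (g : ℝ → ℝ) (x : ℝ) : ℝ := g x - (ℓ : ℝ)⁻¹ * g (ℓ * x)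

lemma Dr_nice {ℓ : ℕ} (hℓ : 1 ≤ ℓ) {g : ℝ → ℝ} {C : ℝ} (h : Nice g C) : Nice (Dr ℓ g) (2 * C) := by
  have hℓ0 : (0 : ℝ) < ℓ := by exact_mod_cast hℓ
  refine ⟨?_, fun x => ?_, fun x => ?_, fun y => ?_⟩
  · exact h.m.sub ((h.m.comp (measurable_id.const_mul _)).const_mul _)
  · unfold Dr
    have h1 := abs_sub (g x) ((ℓ : ℝ)⁻¹ * g (ℓ * x))
    rw [abs_mul, abs_of_pos (by positivity : (0 : ℝ) < (ℓ : ℝ)⁻¹)] at h1
    have h2 : (ℓ : ℝ)⁻¹ ≤ 1 := inv_le_one_of_one_le₀ (by exact_mod_cast hℓ)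
    have h3 := h.b x
    have h4 := h.b (ℓ * x)
    have h5 := abs_nonneg (g (ℓ * x))
    have h6 : (ℓ : ℝ)⁻¹ * |g (ℓ * x)| ≤ 1 * C := mul_le_mul h2 h4 h5 zero_le_one
    linarith
  · unfold Dr
    rw [h.per]
    have : (ℓ : ℝ) * (x + 1) = ℓ * x + ℓ := by ring
    rw [this, per_nat h.per]
  · unfold Dr
    exact (h.rc y).sub (((h.rc.comp_mul hℓ0) y).const_mul _)

lemma nice_sub {g : ℝ → ℝ} {C : ℝ} (h : Nice g C) (u : ℝ) : Nice (fun y => g (y - u)) C :=
  ⟨h.m.comp (measurable_id.sub_const u), fun x => h.b _, fun x => shift_per h.per u x, h.rc.comp_sub u⟩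

/-- Fourier coefficients -/
noncomputable def cf (g : ℝ → ℝ) (m : ℤ) : ℂ := ∫ y in (0 : ℝ)..1, (g y : ℂ) * ee (-m * y)

lemma nice_int {g : ℝ → ℝ} {C : ℝ} (h : Nice g C) (s t : ℝ) :
    IntervalIntegrable (fun y => (g y : ℂ)) volume s t :=
  bdd_int (Complex.measurable_ofReal.comp h.m) C (fun x => by
    show ‖((g x : ℝ) : ℂ)‖ ≤ C
    rw [Complex.norm_real, Real.norm_eq_abs]; exact h.b x) s t

lemma ee_lin_cont (m : ℤ) : Continuous fun y : ℝ => ee (-m * y) :=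
  ee_cont.comp (continuous_const.mul continuous_id)

lemma cf_Dr {ℓ : ℕ} (hℓ : 1 ≤ ℓ) {g : ℝ → ℝ} {C : ℝ} (h : Nice g C) (m : ℤ) :
    cf (Dr ℓ g) m = cf g m - (ℓ : ℂ)⁻¹ * (if (ℓ : ℤ) ∣ m then cf g (m / ℓ) else 0) := by
  have h1 := dilate (fun y => (g y : ℂ)) (fun x => by simp only [h.per]) (nice_int h) ℓ hℓ m
  unfold cf
  rw [← h1, ← intervalIntegral.integral_const_mul, ← intervalIntegral.integral_sub]
  · refine intervalIntegral.integral_congr fun y _ => ?_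
    simp only [Dr]
    push_cast
    ring
  · exact (nice_int h 0 1).mul_continuousOn (ee_lin_cont m).continuousOn
  · refine IntervalIntegrable.const_mul ?_ _
    refine IntervalIntegrable.mul_continuousOn ?_ (ee_lin_cont m).continuousOn
    exact bdd_int (Complex.measurable_ofReal.comp (h.m.comp (measurable_id.const_mul _))) C (fun x => by
      show ‖((g (ℓ * x) : ℝ) : ℂ)‖ ≤ C
      rw [Complex.norm_real, Real.norm_eq_abs]; exact h.b _) _ _

lemma cf_Dr_hom {ℓ : ℕ} (hℓ : 1 ≤ ℓ) {g : ℝ → ℝ} {C : ℝ} (h : Nice g C)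
    (hh : ∀ n : ℤ, cf g (ℓ * n) = (ℓ : ℂ)⁻¹ * cf g n) (m : ℤ) :
    cf (Dr ℓ g) m = if (ℓ : ℤ) ∣ m then 0 else cf g m := by
  rw [cf_Dr hℓ h]
  split_ifs with hd
  · obtain ⟨c, rfl⟩ := hd
    rw [hh, Int.mul_ediv_cancel_left c (by exact_mod_cast (by omega : ℓ ≠ 0)), sub_self]
  · simp

lemma sw_hom (ℓ : ℕ) (n : ℤ) : cf sw (ℓ * n) = (ℓ : ℂ)⁻¹ * cf sw n := by
  unfold cf
  rw [sw_coef, sw_coef]
  push_cast
  rw [one_div, one_div, ← mul_inv]
  congr 1
  ring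

/-- the part of the sawtooth with frequencies coprime to `p q` -/
noncomputable def Psi (p q : ℕ) : ℝ → ℝ := Dr q (Dr p sw)

lemma Psi_nice {p q : ℕ} (hp : 1 ≤ p) (hq : 1 ≤ q) : Nice (Psi p q) 2 := by
  have := Dr_nice hq (Dr_nice hp sw_nice)
  have e : 2 * (2 * ((1 : ℝ) / 2)) = 2 := by norm_num
  rwa [e] at this

lemma cf_Psi {p q : ℕ} (hp : p.Prime) (hq : q.Prime) (hpq : p ≠ q) (m : ℤ)
    (h : (p : ℤ) ∣ m ∨ (q : ℤ) ∣ m) : cf (Psi p q) m = 0 := by
  have h1 := cf_Dr_hom hp.one_le sw_nice (sw_hom p)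
  have h2 : ∀ n : ℤ, cf (Dr p sw) (q * n) = (q : ℂ)⁻¹ * cf (Dr p sw) n := by
    intro n
    rw [h1, h1]
    have : (p : ℤ) ∣ q * n ↔ (p : ℤ) ∣ n := by
      constructor
      · intro h3
        rcases (Int.Prime.dvd_mul' hp h3) with h4 | h4
        · exact absurd ((Nat.prime_dvd_prime_iff_eq hp hq).1 (by exact_mod_cast h4)) hpq
        · exact h4
      · exact fun h3 => h3.mul_left _
    by_cases h3 : (p : ℤ) ∣ n
    · rw [if_pos (this.2 h3), if_pos h3, mul_zero]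
    · rw [if_neg (fun h4 => h3 (this.1 h4)), if_neg h3, sw_hom]
  have h3 := cf_Dr_hom hq.one_le (Dr_nice hp.one_le sw_nice) h2 m
  unfold Psi
  rw [h3]
  split_ifs with h4
  · rfl
  · rw [h1, if_pos (h.resolve_right h4)]

lemma cf_shift {g : ℝ → ℝ} {C : ℝ} (h : Nice g C) (u : ℝ) (m : ℤ) :
    cf (fun y => g (y - u)) m = cf g m * ee (m * (-u)) := by
  unfold cf
  have h1 : ∫ y in (0 : ℝ)..1, (g (y - u) : ℂ) * ee (-m * y) =
      ∫ y in (0 - u : ℝ)..(1 - u), (g y : ℂ) * ee (-m * (y + u)) := by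
    rw [← intervalIntegral.integral_comp_sub_right (fun y => (g y : ℂ) * ee (-m * (y + u))) u]
    refine intervalIntegral.integral_congr fun y _ => ?_
    simp only [sub_add_cancel]
  have h2 : ∀ y : ℝ, (g y : ℂ) * ee (-m * (y + u)) = ((g y : ℂ) * ee (-m * y)) * ee (m * (-u)) := by
    intro y
    rw [mul_assoc, ← ee_add]
    congr 2
    ring
  rw [h1]
  simp_rw [h2]
  rw [intervalIntegral.integral_mul_const]
  congr 1
  have hper : Function.Periodic (fun y => (g y : ℂ) * ee (-m * y)) 1 := by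
    intro y
    simp only
    rw [h.per]
    have : (-m * (y + 1) : ℝ) = -m * y + ((-m : ℤ) : ℝ) := by push_cast; ring
    rw [this, ee_add, ee_int, mul_one]
  have h3 := hper.intervalIntegral_add_eq (0 - u) 0
  rw [zero_add] at h3
  rw [← h3]
  congr 1
  ring

lemma Sm_meas {Y : Type*} [MeasurableSpace Y] {ℓ : ℕ} (hℓ : 2 ≤ ℓ) {Φ : Y → ℝ → ℝ} {C : ℝ}
    (h : ∀ y s, ‖Φ y s‖ ≤ C) (hm : ∀ s, Measurable fun y => Φ y s) (s : ℝ) :
    Measurable fun y => Sm ℓ (Φ y) s := by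
  have h1 : ∀ y, HasSum (fun j : ℕ => (((ℓ : ℝ) ^ j)⁻¹) • Φ y ((ℓ : ℝ) ^ j * s)) (Sm ℓ (Φ y) s) :=
    fun y => (Sm_summable hℓ (a := fun j => Φ y ((ℓ : ℝ) ^ j * s)) fun j => h _ _).hasSum
  refine measurable_of_tendsto_metrizable (f := fun (n : ℕ) y =>
    ∑ j ∈ range n, (((ℓ : ℝ) ^ j)⁻¹) • Φ y ((ℓ : ℝ) ^ j * s)) (fun n => ?_)
    (tendsto_pi_nhds.2 fun y => (h1 y).tendsto_sum_nat)
  simp only [smul_eq_mul]
  exact Finset.measurable_sum _ fun j _ => (hm _).const_mul _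

/-- `∑ w(j) Φ_j` of nice functions is nice -/
lemma Sm_nice {ℓ : ℕ} (hℓ : 2 ≤ ℓ) {Φ : ℝ → ℝ → ℝ} {C : ℝ} (h : ∀ s, Nice (fun y => Φ y s) C) (s : ℝ) :
    Nice (fun y => Sm ℓ (Φ y) s) (2 * C) := by
  have hb : ∀ y s, ‖Φ y s‖ ≤ C := fun y s => by rw [Real.norm_eq_abs]; exact (h s).b y
  refine ⟨Sm_meas hℓ hb (fun s => (h s).m) s, fun x => ?_, fun x => ?_, fun y => ?_⟩
  · rw [← Real.norm_eq_abs]; exact Sm_bdd hℓ (hb x) s
  · unfold Sm
    refine tsum_congr fun j => ?_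
    have := (h ((ℓ : ℝ) ^ j * s)).per x
    rw [this]
  · unfold Sm
    exact Sm_lim (E := ℝ) hℓ (C := C) (Eventually.of_forall fun z j => hb _ _) fun j =>
      (h ((ℓ : ℝ) ^ j * s)).rc y

lemma Sm_scale {E : Type*} [NormedAddCommGroup E] [NormedSpace ℝ E]
    (ℓ : ℕ) (A : ℝ → E) (m s : ℝ) : Sm ℓ (fun u => A (m * u)) s = Sm ℓ A (m * s) := by
  unfold Sm
  refine tsum_congr fun j => ?_
  congr 2
  ring

lemma cf_Sm {ℓ : ℕ} (hℓ : 2 ≤ ℓ) {Φ : ℝ → ℝ → ℝ} {C : ℝ} (h : ∀ s, Nice (fun y => Φ y s) C) (s : ℝ)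
    (m : ℤ) : cf (fun y => Sm ℓ (Φ y) s) m = Sm ℓ (fun u => cf (fun y => Φ y u) m) s := by
  have hb : ∀ y s, ‖Φ y s‖ ≤ C := fun y s => by rw [Real.norm_eq_abs]; exact (h s).b y
  have h1 : ∀ y : ℝ, ((Sm ℓ (Φ y) s : ℝ) : ℂ) * ee (-m * y) =
      Sm ℓ (fun u => ((Φ y u : ℝ) : ℂ) * ee (-m * y)) s := by
    intro y
    obtain ⟨L, hL⟩ : ∃ L : ℝ →L[ℝ] ℂ, ∀ v : ℝ, L v = (v : ℂ) * ee (-m * y) := by
      refine ⟨((ContinuousLinearMap.mul ℝ ℂ).flip (ee (-m * y))).comp Complex.ofRealCLM, fun v => ?_⟩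
      simp [mul_comm]
    have := Sm_clm hℓ (hb y) L s
    simp only [hL] at this
    exact this.symm
  unfold cf
  simp_rw [h1]
  rw [intervalIntegral.integral_of_le zero_le_one]
  have h2 := Sm_int (E := ℂ) (ρ := volume.restrict (Set.Ioc (0 : ℝ) 1)) hℓ
    (Φ := fun y u => ((Φ y u : ℝ) : ℂ) * ee (-m * y)) (C := C) (fun y u => by
      rw [norm_mul, norm_ee, mul_one, Complex.norm_real]; exact hb y u) (fun u =>
      ((Complex.measurable_ofReal.comp (h u).m).mul (ee_lin_cont m).measurable).aestronglyMeasurable) s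
  rw [h2]
  simp only [intervalIntegral.integral_of_le zero_le_one]

/-- the orbit average of the translates of `Psi` -/
noncomputable def GG (p q : ℕ) (t y : ℝ) : ℝ := Sm p (Sm q (fun u => Psi p q (y - u))) t

lemma GG_nice {p q : ℕ} (hp : 2 ≤ p) (hq : 2 ≤ q) (t : ℝ) : Nice (GG p q t) 8 := by
  have h1 : ∀ s, Nice (fun y => Sm q (fun u => Psi p q (y - u)) s) (2 * 2) := fun s =>
    Sm_nice hq (Φ := fun y u => Psi p q (y - u)) (fun u => nice_sub (Psi_nice (by omega) (by omega)) u) s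
  have h2 := Sm_nice hp (Φ := fun y => Sm q (fun u => Psi p q (y - u))) h1 t
  have e : (2 : ℝ) * (2 * 2) = 8 := by norm_num
  rw [e] at h2
  exact h2

lemma cf_GG {p q : ℕ} (hp : 2 ≤ p) (hq : 2 ≤ q) (t : ℝ) (m : ℤ) :
    cf (GG p q t) m = cf (Psi p q) m * Qf p q (m * t) := by
  have hN := Psi_nice (p := p) (q := q) (by omega) (by omega)
  have h0 : ∀ u, Nice (fun y => Psi p q (y - u)) 2 := fun u => nice_sub hN u
  have h1 : ∀ s, Nice (fun y => Sm q (fun u => Psi p q (y - u)) s) (2 * 2) := fun s =>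
    Sm_nice hq (Φ := fun y u => Psi p q (y - u)) h0 s
  have h2 := cf_Sm hp (Φ := fun y => Sm q (fun u => Psi p q (y - u))) h1 t m
  have h3 : ∀ s, cf (fun y => Sm q (fun u => Psi p q (y - u)) s) m =
      Sm q (fun u => cf (Psi p q) m * ee (m * (-u))) s := by
    intro s
    rw [cf_Sm hq (Φ := fun y u => Psi p q (y - u)) h0 s m]
    congr 1
    funext u
    exact cf_shift hN u m
  unfold GG
  rw [h2]
  simp_rw [h3]
  obtain ⟨L, hL⟩ : ∃ L : ℂ →L[ℝ] ℂ, ∀ v : ℂ, L v = cf (Psi p q) m * v :=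
    ⟨ContinuousLinearMap.mul ℝ ℂ (cf (Psi p q) m), fun v => by simp⟩
  have hb : ∀ u : ℝ, ‖ee (m * (-u))‖ ≤ 1 := fun u => (norm_ee _).le
  have h4 : ∀ s, Sm q (fun u => cf (Psi p q) m * ee (m * (-u))) s =
      L (Sm q (fun u : ℝ => ee (m * (-u))) s) := by
    intro s
    have h6 := Sm_clm hq hb L s
    have h7 : (fun u : ℝ => cf (Psi p q) m * ee (m * (-u))) = fun u : ℝ => L (ee (m * (-u))) := by
      funext u
      rw [hL]
    rw [h7]
    exact h6
  simp_rw [h4]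
  rw [Sm_clm hp (fun s => Sm_bdd hq hb s) L t, hL]
  congr 1
  have h5 : ∀ s, Sm q (fun u : ℝ => ee (m * (-u))) s = Sm q (fun u : ℝ => ee (-u)) (m * s) := by
    intro s
    rw [← Sm_scale q (fun u : ℝ => ee (-u)) m s]
    congr 1
    funext u
    congr 1
    ring
  have h6 : Sm q (fun u : ℝ => ee (m * (-u))) = fun s => Sm q (fun u : ℝ => ee (-u)) (m * s) :=
    funext h5
  rw [h6]
  exact Sm_scale p (fun s => Sm q (fun u : ℝ => ee (-u)) s) m t

lemma int_Dr {ℓ : ℕ} (ρ : Measure ℝ) [IsProbabilityMeasure ρ] (hρ : Inv1 ℓ ρ) {g : ℝ → ℝ} {C : ℝ}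
    (h : Nice g C) (s : ℝ) : ∫ y, Dr ℓ g (y - s) ∂ρ =
      (∫ y, g (y - s) ∂ρ) - (ℓ : ℝ)⁻¹ • ∫ y, g (y - ℓ * s) ∂ρ := by
  unfold Dr
  rw [integral_sub, integral_const_mul, inv_shift hρ h.m h.per ⟨C, h.b⟩, smul_eq_mul]
  · exact bdd_integrable (nice_sub h s).m (nice_sub h s).b
  · exact (bdd_integrable (h.m.comp ((measurable_id.sub_const s).const_mul _)) fun x => h.b _).const_mul _

lemma int_bdd (ρ : Measure ℝ) [IsProbabilityMeasure ρ] {g : ℝ → ℝ} {C : ℝ} (h : Nice g C) (s : ℝ) :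
    ‖∫ y, g (y - s) ∂ρ‖ ≤ C := by
  have := norm_integral_le_of_norm_le_const (μ := ρ) (f := fun y => g (y - s))
    (C := C) (Eventually.of_forall fun y => by rw [Real.norm_eq_abs]; exact h.b (y - s))
  simpa using this

lemma int_sw (p q : ℕ) (hp : 2 ≤ p) (hq : 2 ≤ q) (ρ : Measure ℝ) [IsProbabilityMeasure ρ]
    (hρp : Inv1 p ρ) (hρq : Inv1 q ρ) (t : ℝ) : ∫ y, sw (y - t) ∂ρ = ∫ y, GG p q t y ∂ρ := by
  have hD := Dr_nice (ℓ := p) (by omega) sw_nice
  have hN := Psi_nice (p := p) (q := q) (by omega) (by omega)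
  have h1 := Sm_inv hp (A := fun s => ∫ y, sw (y - s) ∂ρ) (V := fun s => ∫ y, Dr p sw (y - s) ∂ρ)
    (C := 1 / 2) (fun s => int_bdd ρ sw_nice s) (fun s => int_Dr ρ hρp sw_nice s)
  have h2 := Sm_inv hq (A := fun s => ∫ y, Dr p sw (y - s) ∂ρ) (V := fun s => ∫ y, Psi p q (y - s) ∂ρ)
    (fun s => int_bdd ρ hD s) (fun s => int_Dr ρ hρq hD s)
  have h3 : ∀ s, ∫ y, Sm q (fun u => Psi p q (y - u)) s ∂ρ = ∫ y, Dr p sw (y - s) ∂ρ := by
    intro s
    rw [← h2 s]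
    exact Sm_int hq (Φ := fun y u => Psi p q (y - u)) (C := 2)
      (fun y u => by rw [Real.norm_eq_abs]; exact hN.b _)
      (fun u => (nice_sub hN u).m.aestronglyMeasurable) s
  have hb : ∀ y s, ‖Sm q (fun u => Psi p q (y - u)) s‖ ≤ 2 * 2 := fun y s =>
    Sm_bdd hq (fun u => by rw [Real.norm_eq_abs]; exact hN.b _) s
  unfold GG
  rw [Sm_int hp (Φ := fun y => Sm q (fun u => Psi p q (y - u))) (C := 2 * 2) hb
    (fun s => (Sm_meas hq (C := 2) (Φ := fun y u => Psi p q (y - u))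
      (fun y u => by rw [Real.norm_eq_abs]; exact hN.b _)
      (fun u => (nice_sub hN u).m) s).aestronglyMeasurable) t]
  simp_rw [h3]
  exact (h1 t).symm

lemma Qf_neg (p q : ℕ) (hp : 2 ≤ p) (hq : 2 ≤ q) (s : ℝ) :
    Qf p q (-s) = (starRingEnd ℂ) (Qf p q s) := by
  unfold Qf
  obtain ⟨L, hL⟩ : ∃ L : ℂ →L[ℝ] ℂ, ∀ v : ℂ, L v = (starRingEnd ℂ) v :=
    ⟨Complex.conjCLE.toContinuousLinearMap, fun v => rfl⟩
  have hb : ∀ u : ℝ, ‖ee (-u)‖ ≤ 1 := fun u => (norm_ee _).le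
  have h1 : ∀ s, Sm q (fun u : ℝ => ee (-u)) (-s) = L (Sm q (fun u : ℝ => ee (-u)) s) := by
    intro s
    rw [← Sm_clm hq hb L s]
    have := Sm_scale q (fun u : ℝ => ee (-u)) (-1) s
    rw [neg_one_mul] at this
    rw [← this]
    congr 1
    funext u
    rw [hL]
    have e : ee (-u) = ee (-1 * (1 * u)) := by congr 1; ring
    rw [e]
    unfold ee
    rw [← Complex.exp_conj]
    congr 1
    rw [map_mul, map_mul, map_mul, Complex.conj_I, Complex.conj_ofReal, Complex.conj_ofReal, map_ofNat]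
    push_cast
    ring
  rw [← hL, ← Sm_clm hp (fun s => Sm_bdd hq hb s) L s]
  have := Sm_scale p (Sm q (fun u : ℝ => ee (-u))) (-1) s
  rw [neg_one_mul] at this
  rw [← this]
  congr 1
  funext u
  rw [neg_one_mul, h1]

/-- **coboundaries** -/
theorem cob {ι : Type*} (p q : ℕ) (hp : p.Prime) (hq : q.Prime) (hpq : p ≠ q) (S : Finset ι)
    (c t : ι → ℝ) (hR : ∀ n : ℕ, 1 ≤ n → ¬ p ∣ n → ¬ q ∣ n → ∑ i ∈ S, (c i : ℂ) * Qf p q (n * t i) = 0)
    (ρ : Measure ℝ) [IsProbabilityMeasure ρ] (hρp : Inv1 p ρ) (hρq : Inv1 q ρ) :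
    ∑ i ∈ S, c i * ∫ y, sw (y - t i) ∂ρ = 0 := by
  have hp2 := hp.two_le
  have hq2 := hq.two_le
  have hG := fun t => GG_nice hp2 hq2 (p := p) (q := q) t
  obtain ⟨F, hF⟩ : ∃ F : ℝ → ℝ, F = fun y => ∑ i ∈ S, c i * GG p q (t i) y := ⟨_, rfl⟩
  have hint : ∑ i ∈ S, c i * ∫ y, sw (y - t i) ∂ρ = ∫ y, F y ∂ρ := by
    rw [hF, integral_finsetSum]
    · refine sum_congr rfl fun i _ => ?_
      rw [integral_const_mul, int_sw p q hp2 hq2 ρ hρp hρq]
    · intro i _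
      exact (bdd_integrable (hG (t i)).m (hG (t i)).b).const_mul _
  have hzero : ∀ y, F y = 0 := by
    refine zero_of_coef F ?_ (∑ i ∈ S, |c i| * 8) ?_ ?_ ?_ ?_
    · rw [hF]
      exact Finset.measurable_sum _ fun i _ => (hG (t i)).m.const_mul _
    · intro x
      rw [hF]
      refine (abs_sum_le_sum_abs _ _).trans (sum_le_sum fun i _ => ?_)
      rw [abs_mul]
      exact mul_le_mul_of_nonneg_left ((hG (t i)).b x) (abs_nonneg _)
    · intro x
      rw [hF]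
      simp only
      exact sum_congr rfl fun i _ => by rw [(hG (t i)).per]
    · intro y
      rw [hF]
      exact tendsto_finsetSum _ fun i _ => ((hG (t i)).rc y).const_mul _
    · intro m
      have h1 : ∫ y in (0 : ℝ)..1, (F y : ℂ) * ee (-m * y) = ∑ i ∈ S, (c i : ℂ) * cf (GG p q (t i)) m := by
        have h2 : ∀ y : ℝ, (F y : ℂ) * ee (-m * y) =
            ∑ i ∈ S, (c i : ℂ) * (((GG p q (t i) y : ℝ) : ℂ) * ee (-m * y)) := by
          intro y
          rw [hF]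
          push_cast
          rw [sum_mul]
          exact sum_congr rfl fun i _ => by ring
        simp_rw [h2]
        rw [intervalIntegral.integral_finsetSum]
        · refine sum_congr rfl fun i _ => ?_
          rw [intervalIntegral.integral_const_mul]
          rfl
        · intro i _
          exact ((nice_int (hG (t i)) 0 1).mul_continuousOn (ee_lin_cont m).continuousOn).const_mul _
      rw [h1]
      simp_rw [cf_GG hp2 hq2]
      by_cases h : (p : ℤ) ∣ m ∨ (q : ℤ) ∣ m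
      · simp [cf_Psi hp hq hpq m h]
      · push Not at h
        have h3 : ∑ i ∈ S, (c i : ℂ) * Qf p q (m * t i) = 0 := by
          have hm0 : m ≠ 0 := by rintro rfl; exact h.1 (dvd_zero _)
          rcases lt_or_gt_of_ne hm0 with h4 | h4
          · obtain ⟨n, hn⟩ : ∃ n : ℕ, m = -(n : ℤ) := ⟨m.natAbs, by omega⟩
            subst hn
            have h5 := hR n (by omega) (fun h6 => h.1 (by
              rw [dvd_neg]; exact_mod_cast h6)) (fun h6 => h.2 (by rw [dvd_neg]; exact_mod_cast h6))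
            have h6 := congrArg (starRingEnd ℂ) h5
            rw [map_sum, map_zero] at h6
            rw [← h6]
            refine sum_congr rfl fun i _ => ?_
            rw [map_mul, Complex.conj_ofReal, ← Qf_neg p q hp2 hq2]
            congr 2
            push_cast
            ring
          · obtain ⟨n, hn⟩ : ∃ n : ℕ, m = (n : ℤ) := ⟨m.natAbs, by omega⟩
            subst hn
            have h5 := hR n (by omega) (fun h6 => h.1 (by exact_mod_cast h6))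
              (fun h6 => h.2 (by exact_mod_cast h6))
            rw [← h5]
            refine sum_congr rfl fun i _ => ?_
            push_cast
            rfl
        have h4 : ∑ i ∈ S, (c i : ℂ) * (cf (Psi p q) m * Qf p q (m * t i)) =
            cf (Psi p q) m * ∑ i ∈ S, (c i : ℂ) * Qf p q (m * t i) := by
          rw [mul_sum]
          exact sum_congr rfl fun i _ => by ring
        rw [h4, h3, mul_zero]
  rw [hint]
  simp [hzero]

end Q190.OA
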