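import Pool.Agent.Q190.OA.E
import Pool.Agent.Q241.FP.B

/-! # From measures on the circle to measures on the line; lifts -/

set_option autoImplicit false

namespace Q190.OA

open Finset Filter Topology MeasureTheory
open Q190.OB (sw sw_abs sw_add_int ee_cont bdd_int dilate)
open Pool.Agent.H807R2.Dav (ee norm_ee ee_add ee_int ee_pow ee_eq ee_zero)
open Q241.FP (TT c dil lift Ok Inv sec)
open Pool.Agent.H373R2.T7 (muR muR_abs)

/-- the representative in `[0, 1)` -/
noncomputable def fr (x : TT) : ℝ := ((AddCircle.measurableEquivIco 1 0 x : Set.Ico (0 : ℝ) (0 + 1)) : ℝ)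

lemma fr_meas : Measurable fr :=
  measurable_subtype_coe.comp (AddCircle.measurableEquivIco 1 0).measurable

lemma coe_fr (x : TT) : ((fr x : ℝ) : TT) = x :=
  (AddCircle.measurableEquivIco 1 0).symm_apply_apply x

lemma fr_eq (x : TT) (y : ℝ) (h : (y : TT) = x) : ∃ n : ℤ, fr x = y + n := by
  have h1 : ((fr x - y : ℝ) : TT) = 0 := by
    rw [AddCircle.coe_sub, coe_fr, h, sub_self]
  have h2 := AddCircle.coe_eq_zero_iff (p := (1 : ℝ)) (x := fr x - y)
  obtain ⟨n, hn⟩ := h2.1 h1
  refine ⟨n, ?_⟩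
  rw [zsmul_eq_mul, mul_one] at hn
  linarith

lemma per_int {g : ℝ → ℝ} (h : ∀ x, g (x + 1) = g x) (n : ℤ) (x : ℝ) : g (x + n) = g x := by
  have := Function.Periodic.int_mul (f := g) (c := 1) h n x
  rwa [mul_one] at this

lemma g_fr {g : ℝ → ℝ} (h : ∀ x, g (x + 1) = g x) (x : TT) (y : ℝ) (hy : (y : TT) = x) :
    g (fr x) = g y := by
  obtain ⟨n, hn⟩ := fr_eq x y hy
  rw [hn, per_int h]

lemma ee_fr (n : ℤ) (x : TT) : (fourier n x : ℂ) = ee (n * fr x) := by
  conv_lhs => rw [← coe_fr x]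
  rw [fourier_coe_apply]
  unfold ee
  congr 1
  push_cast
  ring

/-- the measure on the line -/
noncomputable def rho (μ : Measure TT) : Measure ℝ := μ.map fr

instance (μ : Measure TT) [IsProbabilityMeasure μ] : IsProbabilityMeasure (rho μ) :=
  Measure.isProbabilityMeasure_map fr_meas.aemeasurable

lemma int_rho (μ : Measure TT) {g : ℝ → ℝ} (hg : Measurable g) :
    ∫ y, g y ∂(rho μ) = ∫ x, g (fr x) ∂μ :=
  integral_map fr_meas.aemeasurable hg.aestronglyMeasurable

lemma int_ee (μ : Measure TT) : ∫ y, ee y ∂(rho μ) = c μ 1 := by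
  unfold rho c
  rw [integral_map fr_meas.aemeasurable ee_cont.measurable.aestronglyMeasurable]
  refine integral_congr_ae (Eventually.of_forall fun x => ?_)
  simp only
  rw [ee_fr]
  congr 1
  push_cast
  ring

lemma int_dil (μ : Measure TT) (k : ℕ) {g : ℝ → ℝ} (hg : Measurable g) (hp : ∀ x, g (x + 1) = g x) :
    ∫ y, g y ∂(rho (dil k μ)) = ∫ y, g (k * y) ∂(rho μ) := by
  have hg2 : Measurable fun y => g (k * y) := hg.comp (measurable_id.const_mul _)
  have hg3 : Measurable fun x : TT => g (fr x) := hg.comp fr_meas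
  rw [int_rho _ hg, int_rho _ hg2, dil,
    integral_map (Q241.FP.measurable_nsmul k).aemeasurable hg3.aestronglyMeasurable]
  refine integral_congr_ae (Eventually.of_forall fun x => ?_)
  simp only
  refine g_fr hp _ _ ?_
  rw [← nsmul_eq_mul, AddCircle.coe_nsmul, coe_fr]

lemma inv1_of {ℓ : ℕ} {μ : Measure TT} (h : MeasurePreserving (fun x : TT => ℓ • x) μ μ) :
    Inv1 ℓ (rho μ) := by
  intro g hg hp _
  rw [← int_dil μ ℓ hg hp]
  have : dil ℓ μ = μ := h.map_eq
  rw [this]

/-- Hermite's identity -/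
lemma hermite (d : ℕ) (hd : 1 ≤ d) (z : ℝ) : ∑ j ∈ range d, sw (z + j / d) = sw (d * z) := by
  have hd0 : (0 : ℝ) < d := by exact_mod_cast hd
  obtain ⟨f, hf⟩ : ∃ f : ℝ → ℝ, f = fun z => ∑ j ∈ range d, sw (z + j / d) - sw (d * z) := ⟨_, rfl⟩
  have hper : Function.Periodic f (1 / d) := by
    intro z
    rw [hf]
    simp only
    have e1 : (d : ℝ) * (z + 1 / d) = d * z + ((1 : ℤ) : ℝ) := by
      push_cast; field_simp
    rw [e1, sw_add_int]
    congr 1
    have e2 : ∀ j : ℕ, sw (z + 1 / d + j / d) = sw (z + ((j + 1 : ℕ) : ℝ) / d) := by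
      intro j; congr 1; push_cast; ring
    simp_rw [e2]
    have e3 := sum_range_succ (fun j : ℕ => sw (z + (j : ℝ) / d)) d
    have e4 := sum_range_succ' (fun j : ℕ => sw (z + (j : ℝ) / d)) d
    have e5 : sw (z + (d : ℝ) / d) = sw (z + ((0 : ℕ) : ℝ) / d) := by
      rw [div_self hd0.ne']
      have := sw_add_int z 1
      push_cast at this ⊢
      rw [this, zero_div, add_zero]
    rw [e4] at e3
    linarith
  have hsmall : ∀ r : ℝ, 0 ≤ r → r < 1 / d → f r = 0 := by
    intro r h0 h1
    rw [hf]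
    simp only
    rw [lt_div_iff₀ hd0] at h1
    have e1 : sw (d * r) = 1 / 2 - d * r := by
      unfold sw
      rw [Int.fract_eq_self.2 ⟨by positivity, by linarith⟩]
    have e2 : ∀ j ∈ range d, sw (r + j / d) = 1 / 2 - r - (j : ℝ) * (1 / d) := by
      intro j hj
      rw [mem_range] at hj
      unfold sw
      have : Int.fract (r + j / d) = r + j / d := by
        rw [Int.fract_eq_self]
        refine ⟨by positivity, ?_⟩
        have : ((j : ℝ) + 1) ≤ d := by exact_mod_cast hj
        have h3 : r + j / d = (r * d + j) / d := by field_simp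
        rw [h3, div_lt_one hd0]
        linarith
      rw [this]; ring
    rw [sum_congr rfl e2, e1, sum_sub_distrib, sum_const, card_range, nsmul_eq_mul, ← sum_mul]
    have e3 : ∑ j ∈ range d, (j : ℝ) = d * (d - 1) / 2 := by
      have := sum_range_id_mul_two d
      have h4 : (∑ j ∈ range d, (j : ℝ)) * 2 = d * (d - 1) := by
        have h5 : ((∑ j ∈ range d, j : ℕ) : ℝ) * 2 = ((d * (d - 1) : ℕ) : ℝ) := by exact_mod_cast this
        rw [Nat.cast_sum, Nat.cast_mul, Nat.cast_sub hd, Nat.cast_one] at h5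
        exact h5
      linarith
    rw [e3]
    field_simp
    ring
  have h1 : f z = 0 := by
    have h2 := hper.sub_int_mul_eq (x := z) ⌊d * z⌋
    rw [← h2]
    have h3 := Int.floor_le (d * z)
    have h4 := Int.lt_floor_add_one (d * z)
    refine hsmall _ ?_ ?_
    · rw [mul_one_div, sub_nonneg, div_le_iff₀ hd0]; linarith
    · rw [mul_one_div, lt_div_iff₀ hd0, sub_mul, div_mul_cancel₀ _ hd0.ne']; linarith
  rw [hf] at h1
  simp only at h1
  linarith

lemma int_lift (μ : Measure TT) [IsProbabilityMeasure μ] (d : ℕ) (hd : 1 ≤ d) (s : ℝ) :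
    ∫ y, sw (y - s) ∂(rho (lift d μ)) = (d : ℝ)⁻¹ * ∫ y, sw (y - d * s) ∂(rho μ) := by
  have hd0 : (0 : ℝ) < d := by exact_mod_cast hd
  have hN := nice_sub sw_nice s
  have hN2 := nice_sub sw_nice (d * s)
  rw [int_rho _ hN.m, int_rho _ hN2.m, lift, integral_smul_measure, integral_finsetSum_measure]
  · have h1 : ∀ j ∈ range d, ∫ x, sw (fr x - s) ∂(μ.map (fun x => sec d x + (((j : ℝ) / d : ℝ) : TT))) =
        ∫ x, sw ((fr x - d * s) / d + j / d) ∂μ := by
      intro j _
      have hg3 : Measurable fun x : TT => sw (fr x - s) := hN.m.comp fr_meas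
      rw [integral_map (Q241.FP.measurable_sec_add d _).aemeasurable hg3.aestronglyMeasurable]
      refine integral_congr_ae (Eventually.of_forall fun x => ?_)
      simp only
      have e := g_fr (g := fun y => sw (y - s)) hN.per (sec d x + (((j : ℝ) / d : ℝ) : TT))
        (fr x / d + j / d) (by
          rw [AddCircle.coe_add]
          rfl)
      rw [e]
      congr 1
      field_simp
      ring
    rw [sum_congr rfl h1, ← integral_finsetSum]
    · rw [ENNReal.toReal_inv, ENNReal.toReal_natCast, smul_eq_mul]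
      congr 1
      refine integral_congr_ae (Eventually.of_forall fun x => ?_)
      simp only
      rw [hermite d hd, mul_div_cancel₀ _ hd0.ne']
    · intro j _
      refine Integrable.of_bound (C := 1 / 2) ?_ (Eventually.of_forall fun x => ?_)
      · exact (sw_meas.comp (((fr_meas.sub_const _).div_const _).add_const _)).aestronglyMeasurable
      · rw [Real.norm_eq_abs]; exact sw_abs _
  · intro j _
    have : IsProbabilityMeasure (μ.map (fun x => sec d x + (((j : ℝ) / d : ℝ) : TT))) :=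
      Measure.isProbabilityMeasure_map (Q241.FP.measurable_sec_add d _).aemeasurable
    refine Integrable.of_bound (C := 1 / 2) ?_ (Eventually.of_forall fun x => ?_)
    · exact (hN.m.comp fr_meas).aestronglyMeasurable
    · rw [Real.norm_eq_abs]; exact sw_abs _

/-- the test functional -/
noncomputable def Te {ι : Type*} (S : Finset ι) (w t : ι → ℝ) (μ : Measure TT) : ℝ :=
  ∑ i ∈ S, w i * ∫ y, sw (y - t i) ∂(rho μ)

/-- the orbit sums -/
noncomputable def Rr {ι : Type*} (p q : ℕ) (S : Finset ι) (w t : ι → ℝ) (n : ℕ) : ℂ :=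
  ∑ i ∈ S, (w i : ℂ) * Qf p q (n * t i)

lemma chi_zero {p q k : ℕ} (h : p ∣ k ∨ q ∣ k) : chi p q k = 0 := by
  unfold chi rem
  split_ifs with h1 h2
  · rfl
  · rfl
  · rcases h with h | h
    · exact absurd h h1
    · exact absurd h h2

/-- the identity obtained from the Möbius sums -/
theorem im_zero {ι : Type*} {p q : ℕ} (hp : p.Prime) (hq : q.Prime) (hpq : p ≠ q) (S : Finset ι)
    (w t : ι → ℝ) (H : ∀ μ : Measure TT, Ok {p, q} μ → Te S w t μ = 0) (n : ℕ) (hn1 : 1 ≤ n)
    (hnp : ¬ p ∣ n) (hnq : ¬ q ∣ n) (μ : Measure TT) (hμ : Ok {p, q} μ) (m : ℕ) (hm : 1 ≤ m) :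
    (c μ m * Rr p q S w t n).im = 0 := by
  have hν : Ok {p, q} (dil m μ) := hμ.dil hm
  obtain ⟨ν, hνe⟩ : ∃ ν, ν = dil m μ := ⟨_, rfl⟩
  rw [← hνe] at hν
  have hc : c ν 1 = c μ m := by rw [hνe, Q241.FP.c_dil, mul_one]
  rw [← hc]
  have := hν.prob
  have hip : Inv1 p (rho ν) := inv1_of (hν.inv p (by simp))
  have hiq : Inv1 q (rho ν) := inv1_of (hν.inv q (by simp))
  -- all the terms vanish
  have h1 : ∀ k : ℕ, 1 ≤ k → ¬ p ∣ k → ¬ q ∣ k → ∑ i ∈ S, w i * ∫ y, sw (k * (y - n * t i)) ∂(rho ν) = 0 := by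
    intro k hk hkp hkq
    have hd : 1 ≤ k * n := Nat.one_le_iff_ne_zero.2 (Nat.mul_ne_zero (by omega) (by omega))
    have h2 : Ok {p, q} (lift (k * n) (dil k ν)) := by
      refine (hν.dil hk).lift hd ?_
      intro s hs
      rw [Finset.mem_insert, Finset.mem_singleton] at hs
      rcases hs with rfl | rfl
      · exact ((Nat.Prime.coprime_iff_not_dvd hp).2 (fun h => by
          rcases (Nat.Prime.dvd_mul hp).1 h with h3 | h3
          · exact hkp h3
          · exact hnp h3)).symm
      · exact ((Nat.Prime.coprime_iff_not_dvd hq).2 (fun h => by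
          rcases (Nat.Prime.dvd_mul hq).1 h with h3 | h3
          · exact hkq h3
          · exact hnq h3)).symm
    have h3 := H _ h2
    unfold Te at h3
    have hd0 : ((k * n : ℕ) : ℝ) ≠ 0 := by exact_mod_cast (by omega : k * n ≠ 0)
    have h4 : ∀ i, ∫ y, sw (y - t i) ∂(rho (lift (k * n) (dil k ν))) =
        ((k * n : ℕ) : ℝ)⁻¹ * ∫ y, sw (k * (y - n * t i)) ∂(rho ν) := by
      intro i
      rw [int_lift _ _ hd]
      congr 1
      have hN := nice_sub sw_nice (((k * n : ℕ) : ℝ) * t i)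
      rw [int_dil ν k hN.m hN.per]
      refine integral_congr_ae (Eventually.of_forall fun x => ?_)
      simp only
      congr 1
      push_cast
      ring
    have h5 : ∑ i ∈ S, w i * ∫ y, sw (y - t i) ∂(rho (lift (k * n) (dil k ν))) =
        ((k * n : ℕ) : ℝ)⁻¹ * ∑ i ∈ S, w i * ∫ y, sw (k * (y - n * t i)) ∂(rho ν) := by
      rw [mul_sum]
      refine sum_congr rfl fun i _ => ?_
      rw [h4]; ring
    rw [h5] at h3
    exact (mul_eq_zero.1 h3).resolve_left (inv_ne_zero hd0)
  -- the Möbius sums vanish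
  have h2 : ∀ K : ℕ, ∑ i ∈ S, w i * J (rho ν) (chi p q) K (n * t i) = 0 := by
    intro K
    have h3 : ∀ i, J (rho ν) (chi p q) K (n * t i) =
        ∑ k ∈ Icc 1 K, muR k * chi p q k / k * ∫ y, sw (k * (y - n * t i)) ∂(rho ν) := by
      intro i
      unfold J DS
      rw [integral_finsetSum]
      · refine sum_congr rfl fun k _ => ?_
        rw [← integral_const_mul]
        refine integral_congr_ae (Eventually.of_forall fun x => ?_)
        simp only
        ring
      · intro k _
        refine (Integrable.const_mul ?_ _).div_const _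
        refine Integrable.of_bound (C := 1 / 2) ?_ (Eventually.of_forall fun x => ?_)
        · exact (sw_meas.comp ((measurable_id.sub_const _).const_mul _)).aestronglyMeasurable
        · rw [Real.norm_eq_abs]; exact sw_abs _
    simp_rw [h3, mul_sum]
    rw [sum_comm]
    refine sum_eq_zero fun k hk => ?_
    have hk1 := (mem_Icc.1 hk).1
    have h4 : ∑ i ∈ S, w i * (muR k * chi p q k / k * ∫ y, sw (k * (y - n * t i)) ∂(rho ν)) =
        muR k * chi p q k / k * ∑ i ∈ S, w i * ∫ y, sw (k * (y - n * t i)) ∂(rho ν) := by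
      rw [mul_sum]
      exact sum_congr rfl fun i _ => by ring
    rw [h4]
    by_cases h5 : p ∣ k ∨ q ∣ k
    · rw [chi_zero h5]; simp
    · push Not at h5
      rw [h1 k hk1 h5.1 h5.2, mul_zero]
  have h3 : Tendsto (fun K => ∑ i ∈ S, w i * J (rho ν) (chi p q) K (n * t i)) atTop
      (𝓝 (∑ i ∈ S, w i * (1 / Real.pi * ((∫ y, ee y ∂(rho ν)) * Qf p q (n * t i)).im))) :=
    tendsto_finsetSum _ fun i _ => (J_lim p q hp hq hpq (rho ν) hip hiq _).const_mul _
  simp_rw [h2] at h3
  have h4 := tendsto_nhds_unique h3 tendsto_const_nhds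
  rw [int_ee] at h4
  have h5 : ∑ i ∈ S, w i * (1 / Real.pi * (c ν 1 * Qf p q (n * t i)).im) =
      1 / Real.pi * (c ν 1 * Rr p q S w t n).im := by
    unfold Rr
    rw [mul_sum, Complex.im_sum, mul_sum]
    refine sum_congr rfl fun i _ => ?_
    have : c ν 1 * ((w i : ℂ) * Qf p q (n * t i)) = (w i : ℂ) * (c ν 1 * Qf p q (n * t i)) := by ring
    rw [this, Complex.im_ofReal_mul]
    ring
  rw [h5] at h4
  have hpi : 1 / Real.pi ≠ 0 := by positivity
  exact (mul_eq_zero.1 h4).resolve_left hpi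

end Q190.OA
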