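import Pool.Agent.Q190.OA.F
import Pool.Agent.Q190.OB.G

/-! # Averages of translates, and one-sided tests -/

set_option autoImplicit false

namespace Q190.OA

open Finset Filter Topology MeasureTheory
open Q190.OB (sw sq sq_eq sw_abs sq_abs sw_add_int ee_cont low UD ud_of ud_iff sum_low)
open Pool.Agent.H807R2.Dav (ee norm_ee ee_add ee_int ee_pow ee_eq ee_zero)
open Q241.FP (TT c dil lift Ok Inv sec)
open Q241.SW (e avg e_add e_norm)

lemma weyl_ap (M : ℕ) (hM : 1 ≤ M) (θ : ℝ) (hθ : Irrational θ) (m : ℤ) (hm : m ≠ 0) :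
    Tendsto (avg fun n : ℕ => e (m * ((1 + M * (n : ℝ)) * θ))) atTop (𝓝 0) := by
  obtain ⟨z, hz⟩ : ∃ z : ℂ, z = e (m * M * θ) := ⟨_, rfl⟩
  have hz1 : z ≠ 1 := by
    intro h
    rw [hz] at h
    unfold e at h
    rw [Complex.exp_eq_one_iff] at h
    obtain ⟨n, hn⟩ := h
    have h1 : (2 * Real.pi * (m * M * θ) : ℝ) = n * (2 * Real.pi) := by
      have h2 : ((2 * Real.pi * (m * M * θ) : ℝ) : ℂ) * Complex.I = ((n * (2 * Real.pi) : ℝ) : ℂ) * Complex.I := by
        rw [hn]; push_cast; ring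
      exact_mod_cast mul_right_cancel₀ Complex.I_ne_zero h2
    have h2 : (m * M : ℝ) * θ = n := by
      have : (2 * Real.pi) ≠ 0 := by positivity
      apply mul_left_cancel₀ this
      linarith
    have hmM : ((m * M : ℤ)) ≠ 0 := mul_ne_zero hm (by omega)
    have h3 := (irrational_intCast_mul_iff (m := m * M) (x := θ)).2 ⟨hmM, hθ⟩
    apply h3
    refine ⟨(n : ℚ), ?_⟩
    push_cast
    linarith
  have hterm : ∀ n : ℕ, e (m * ((1 + M * (n : ℝ)) * θ)) = e (m * θ) * z ^ n := by
    intro n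
    have h1 : z ^ n = e (n * (m * M * θ)) := by
      induction n with
      | zero => simp [e]
      | succ n ih => rw [pow_succ, ih, hz, ← e_add]; congr 1; push_cast; ring
    rw [h1, ← e_add]
    congr 1
    ring
  have hd : 0 < ‖z - 1‖ := norm_pos_iff.2 (sub_ne_zero.2 hz1)
  have hb : ∀ N : ℕ, ‖avg (fun n : ℕ => e (m * ((1 + M * (n : ℝ)) * θ))) N‖ ≤ (2 / ‖z - 1‖) / N := by
    intro N
    unfold avg
    rw [norm_div, Complex.norm_natCast]
    refine div_le_div_of_nonneg_right ?_ (Nat.cast_nonneg _)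
    simp_rw [hterm]
    rw [← mul_sum, norm_mul, e_norm, one_mul, geom_sum_eq hz1, norm_div]
    refine div_le_div_of_nonneg_right ?_ hd.le
    have h2 : ‖z‖ = 1 := by rw [hz]; exact e_norm _
    calc ‖z ^ N - 1‖ ≤ ‖z ^ N‖ + ‖(1 : ℂ)‖ := norm_sub_le _ _
      _ = 2 := by rw [norm_pow, h2]; norm_num
  refine squeeze_zero_norm hb ?_
  exact tendsto_const_nhds.div_atTop tendsto_natCast_atTop_atTop

lemma mean_sw (M : ℕ) (hM : 1 ≤ M) (θ : ℝ) (hθ : Irrational θ) :
    Tendsto (fun X : ℕ => (∑ n ∈ range X, sw ((1 + M * (n : ℝ)) * θ)) / X) atTop (𝓝 0) := by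
  have hud : UD (fun n : ℕ => (1 + M * (n : ℝ)) * θ) := ud_of _ fun m hm => weyl_ap M hM θ hθ m hm
  have hlow := (ud_iff _).1 hud
  obtain ⟨A, hA⟩ : ∃ A : ℕ → ℝ → ℝ, A = fun X s => (∑ n ∈ range X, sw (s * ((1 + M * (n : ℝ)) * θ))) / X :=
    ⟨_, rfl⟩
  obtain ⟨V, hV⟩ : ∃ V : ℕ → ℝ → ℝ, V = fun X s =>
    (1 / 4) * ((∑ n ∈ range X, sq (s * ((1 + M * (n : ℝ)) * θ))) / X) := ⟨_, rfl⟩
  have hmean : ∀ (f : ℕ → ℝ) (C : ℝ), 0 ≤ C → (∀ n, |f n| ≤ C) → ∀ X : ℕ, |(∑ n ∈ range X, f n) / X| ≤ C := by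
    intro f C hC hf X
    rcases Nat.eq_zero_or_pos X with h0 | h0
    · subst h0; simpa using hC
    · have hX : (0 : ℝ) < X := by exact_mod_cast h0
      rw [abs_div, abs_of_pos hX, div_le_iff₀ hX]
      refine (abs_sum_le_sum_abs _ _).trans ((sum_le_sum fun n _ => hf n).trans ?_)
      rw [sum_const, card_range, nsmul_eq_mul, mul_comm]
  have hAb : ∀ X s, ‖A X s‖ ≤ 1 / 2 := by
    intro X s
    rw [hA, Real.norm_eq_abs]
    exact hmean _ _ (by norm_num) (fun n => sw_abs _) X
  have hVb : ∀ X s, ‖V X s‖ ≤ 1 := by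
    intro X s
    rw [hV, Real.norm_eq_abs, abs_mul, abs_of_pos (by norm_num : (0 : ℝ) < 1 / 4)]
    have := hmean (fun n => sq (s * ((1 + M * (n : ℝ)) * θ))) 1 zero_le_one (fun n => (sq_abs _).le) X
    linarith
  have hAV : ∀ X s, V X s = A X s - ((2 : ℕ) : ℝ)⁻¹ • A X (((2 : ℕ) : ℝ) * s) := by
    intro X s
    rw [hV, hA]
    simp only
    rw [smul_eq_mul]
    have h1 : ∑ n ∈ range X, sq (s * ((1 + M * (n : ℝ)) * θ)) =
        4 * ∑ n ∈ range X, sw (s * ((1 + M * (n : ℝ)) * θ)) -
          2 * ∑ n ∈ range X, sw (((2 : ℕ) : ℝ) * s * ((1 + M * (n : ℝ)) * θ)) := by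
      rw [mul_sum, mul_sum, ← sum_sub_distrib]
      refine sum_congr rfl fun n _ => ?_
      rw [sq_eq]
      have e : 2 * (s * ((1 + M * (n : ℝ)) * θ)) = ((2 : ℕ) : ℝ) * s * ((1 + M * (n : ℝ)) * θ) := by
        push_cast; ring
      rw [e]
    rw [h1]
    push_cast
    ring
  have h1 : ∀ X, A X 1 = ∑' j : ℕ, (((2 : ℕ) : ℝ) ^ j)⁻¹ • V X (((2 : ℕ) : ℝ) ^ j * 1) := by
    intro X
    have := Sm_inv (E := ℝ) (le_refl 2) (hAb X) (hAV X) 1
    unfold Sm at this
    exact this.symm
  have h2 : ∀ j : ℕ, Tendsto (fun X => V X (((2 : ℕ) : ℝ) ^ j * 1)) atTop (𝓝 0) := by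
    intro j
    have h3 := (hlow (2 ^ j) (Nat.one_le_two_pow)).2
    have h4 := (h3.const_mul 2).sub_const 1
    have e1 : (2 : ℝ) * (1 / 2) - 1 = 0 := by norm_num
    rw [e1] at h4
    have h5 := h4.const_mul (1 / 4 : ℝ)
    rw [mul_zero] at h5
    refine h5.congr' ?_
    filter_upwards [eventually_ge_atTop 1] with X hX
    have hX0 : (X : ℝ) ≠ 0 := by exact_mod_cast (by omega : X ≠ 0)
    rw [hV]
    simp only
    have h6 := sum_low (fun n : ℕ => ((2 ^ j : ℕ) : ℝ) * ((1 + M * (n : ℝ)) * θ)) X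
    have e2 : ∀ n : ℕ, Q190.OB.sq (((2 : ℕ) : ℝ) ^ j * 1 * ((1 + M * (n : ℝ)) * θ)) =
        Q190.OB.sq (((2 ^ j : ℕ) : ℝ) * ((1 + M * (n : ℝ)) * θ)) := by
      intro n; congr 1; push_cast; ring
    simp_rw [e2]
    rw [h6, sub_div, div_self hX0, mul_div_assoc]
  have h3 := Sm_lim (E := ℝ) (l := atTop) (le_refl 2) (a := fun X j => V X (((2 : ℕ) : ℝ) ^ j * 1))
    (b := fun _ => 0) (C := 1) (Eventually.of_forall fun X j => hVb _ _) h2
  simp only [smul_zero, tsum_zero] at h3
  refine h3.congr fun X => ?_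
  rw [← h1 X, hA]
  simp

/-- the average of translates -/
noncomputable def av {κ : Type*} (I : Finset κ) (a : κ → TT) (μ : Measure TT) : Measure TT :=
  ((I.card : ENNReal))⁻¹ • ∑ i ∈ I, μ.map (fun x => x + a i)

lemma add_meas (t : TT) : Measurable (fun x : TT => x + t) := (continuous_add_const t).measurable

lemma av_prob {κ : Type*} {I : Finset κ} (hI : I.Nonempty) (a : κ → TT) (μ : Measure TT)
    [IsProbabilityMeasure μ] : IsProbabilityMeasure (av I a μ) := by
  constructor
  rw [av, Measure.smul_apply, Measure.coe_finsetSum, Finset.sum_apply]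
  have : ∀ j ∈ I, (μ.map (fun x => x + a j)) Set.univ = 1 := by
    intro j _
    rw [Measure.map_apply (add_meas _) MeasurableSet.univ, Set.preimage_univ, measure_univ]
  rw [Finset.sum_congr rfl this]
  simp only [Finset.sum_const, nsmul_eq_mul, mul_one, smul_eq_mul]
  exact ENNReal.inv_mul_cancel (by exact_mod_cast hI.card_pos.ne') (ENNReal.natCast_ne_top _)

lemma av_atomless {κ : Type*} (I : Finset κ) (a : κ → TT) {μ : Measure TT} (hμ : ∀ x, μ {x} = 0)
    (y : TT) : av I a μ {y} = 0 := by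
  rw [av, Measure.smul_apply, Measure.coe_finsetSum, Finset.sum_apply]
  have : ∀ j ∈ I, (μ.map (fun x => x + a j)) {y} = 0 := by
    intro j _
    rw [Measure.map_apply (add_meas _) (measurableSet_singleton y)]
    have : (fun x : TT => x + a j) ⁻¹' {y} = {y - a j} := by
      ext x
      simp only [Set.mem_preimage, Set.mem_singleton_iff]
      constructor
      · intro h; rw [← h]; abel
      · intro h; rw [h]; abel
    rw [this]
    exact hμ _
  rw [Finset.sum_congr rfl this]
  simp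

lemma c_av {κ : Type*} (I : Finset κ) (a : κ → TT) (μ : Measure TT) [IsProbabilityMeasure μ] (n : ℤ) :
    c (av I a μ) n = c μ n * ((I.card : ℂ)⁻¹ * ∑ i ∈ I, (fourier n (a i) : ℂ)) := by
  rw [c, av, integral_smul_measure, integral_finsetSum_measure]
  · have h1 : ∀ j ∈ I, ∫ x, (fourier n x : ℂ) ∂(μ.map (fun x => x + a j)) = c μ n * fourier n (a j) := by
      intro j _
      rw [integral_map (add_meas _).aemeasurable
        (Q241.FP.measurable_fourier n).aestronglyMeasurable]
      simp only [Q241.FP.fourier_add']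
      rw [integral_mul_const]
      rfl
    rw [Finset.sum_congr rfl h1, ← Finset.mul_sum]
    rw [ENNReal.toReal_inv, ENNReal.toReal_natCast, Complex.real_smul]
    push_cast
    ring
  · intro j _
    have : IsProbabilityMeasure (μ.map (fun x => x + a j)) :=
      Measure.isProbabilityMeasure_map (add_meas _).aemeasurable
    exact Q241.FP.integrable_fourier n _

lemma av_ok {κ : Type*} {S : Finset ℕ} {I : Finset κ} (hI : I.Nonempty) (a : κ → TT) {μ : Measure TT}
    (h : Ok S μ) (ha : ∀ s ∈ S, ∀ n : ℤ, ∑ i ∈ I, (fourier (s * n) (a i) : ℂ) = ∑ i ∈ I, (fourier n (a i) : ℂ)) :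
    Ok S (av I a μ) := by
  have := h.prob
  have hp := av_prob hI a μ
  refine ⟨hp, ?_, av_atomless I a h.atomless⟩
  rw [Q241.FP.inv_iff]
  intro s hs n
  rw [c_av, c_av, ha s hs, (Q241.FP.inv_iff S μ).1 h.inv s hs]

lemma av_int {κ : Type*} (I : Finset κ) (a : κ → TT) (μ : Measure TT) [IsProbabilityMeasure μ]
    {g : ℝ → ℝ} {C : ℝ} (hN : Nice g C) :
    ∫ y, g y ∂(rho (av I a μ)) = ((I.card : ℝ))⁻¹ * ∑ i ∈ I, ∫ x, g (fr (x + a i)) ∂μ := by
  have hg3 : Measurable fun x : TT => g (fr x) := hN.m.comp fr_meas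
  rw [int_rho _ hN.m, av, integral_smul_measure, integral_finsetSum_measure]
  · rw [ENNReal.toReal_inv, ENNReal.toReal_natCast, smul_eq_mul]
    congr 1
    refine sum_congr rfl fun j _ => ?_
    rw [integral_map (add_meas _).aemeasurable hg3.aestronglyMeasurable]
  · intro j _
    have : IsProbabilityMeasure (μ.map (fun x => x + a j)) :=
      Measure.isProbabilityMeasure_map (add_meas _).aemeasurable
    exact Integrable.of_bound hg3.aestronglyMeasurable C (Eventually.of_forall fun x => by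
      rw [Real.norm_eq_abs]; exact hN.b _)

lemma fourier_frac (N : ℕ) (hN : 1 ≤ N) (n : ℤ) (j : ℕ) :
    (fourier n (((j : ℝ) / N : ℝ) : TT) : ℂ) = ee (-((-n : ℤ) : ℝ) * j / N) := by
  rw [fourier_coe_apply]
  unfold ee
  congr 1
  push_cast
  ring

lemma full_sum (N : ℕ) (hN : 1 ≤ N) (n : ℤ) :
    ∑ j ∈ range N, (fourier n (((j : ℝ) / N : ℝ) : TT) : ℂ) = if (N : ℤ) ∣ n then (N : ℂ) else 0 := by
  simp_rw [fourier_frac N hN n]
  split_ifs with h
  · obtain ⟨k, rfl⟩ := h
    have hN0 : (N : ℝ) ≠ 0 := by exact_mod_cast (by omega : N ≠ 0)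
    have : ∀ j ∈ range N, ee (-((-((N : ℤ) * k) : ℤ) : ℝ) * j / N) = 1 := by
      intro j _
      have e1 : (-((-((N : ℤ) * k) : ℤ) : ℝ) * j / N) = ((k * j : ℤ) : ℝ) := by
        push_cast; field_simp
      rw [e1, ee_int]
    rw [sum_congr rfl this]
    simp
  · exact Q190.OB.geom_zero N hN (-n) (fun h1 => h (by rwa [dvd_neg] at h1))

/-- the average over the nonzero points of order dividing `N` -/
lemma punct_ok {p q : ℕ} (hp : p.Prime) (hq : q.Prime) {N : ℕ} (hN : 2 ≤ N) (hNp : Nat.Coprime N p)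
    (hNq : Nat.Coprime N q) {μ : Measure TT} (h : Ok {p, q} μ) :
    Ok {p, q} (av ((range N).erase 0) (fun j : ℕ => (((j : ℝ) / N : ℝ) : TT)) μ) := by
  refine av_ok ⟨1, by rw [mem_erase, mem_range]; omega⟩ _ h ?_
  intro s hs n
  have hco : Nat.Coprime N s := by
    rw [Finset.mem_insert, Finset.mem_singleton] at hs
    rcases hs with rfl | rfl <;> assumption
  have h0 : (0 : ℕ) ∈ range N := mem_range.2 (by omega)
  have h1 := full_sum N (by omega) (s * n)
  have h2 := full_sum N (by omega) n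
  rw [← add_sum_erase _ _ h0] at h1 h2
  have h3 : (N : ℤ) ∣ s * n ↔ (N : ℤ) ∣ n := by
    constructor
    · intro h4
      have h5 : IsCoprime (N : ℤ) (s : ℤ) := Nat.isCoprime_iff_coprime.mpr hco
      exact h5.dvd_of_dvd_mul_left h4
    · exact fun h4 => h4.mul_left _
  simp only [h3] at h1
  rw [← h2] at h1
  have h4 : ∀ m : ℤ, (fourier m ((((0 : ℕ) : ℝ) / N : ℝ) : TT) : ℂ) = 1 := by
    intro m; simp
  rw [h4, h4] at h1
  exact add_left_cancel h1

theorem eq_of_ge {ι : Type*} {p q : ℕ} (hp : p.Prime) (hq : q.Prime) (S : Finset ι)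
    (w t : ι → ℝ) (H : ∀ μ : Measure TT, Ok {p, q} μ → 0 ≤ Te S w t μ) (μ : Measure TT)
    (hμ : Ok {p, q} μ) : Te S w t μ = 0 := by
  have := hμ.prob
  refine le_antisymm ?_ (H μ hμ)
  -- the bound for one `N`
  have h1 : ∀ N : ℕ, 1 ≤ N → Nat.Coprime N p → Nat.Coprime N q →
      Te S w t μ ≤ ∑ i ∈ S, w i * ∫ y, sw (N * (y - t i)) ∂(rho μ) := by
    intro N hN1 hNp hNq
    rcases (by omega : N = 1 ∨ 2 ≤ N) with rfl | hN
    · unfold Te; simp
    · have hN0 : (0 : ℝ) < N := by exact_mod_cast (by omega : 0 < N)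
      have h2 := H _ (punct_ok hp hq hN hNp hNq hμ)
      unfold Te at h2
      have h3 : ∀ i, ∫ y, sw (y - t i) ∂(rho (av ((range N).erase 0) (fun j : ℕ => (((j : ℝ) / N : ℝ) : TT)) μ)) =
          ((((range N).erase 0).card : ℕ) : ℝ)⁻¹ *
            (∫ y, sw (N * (y - t i)) ∂(rho μ) - ∫ y, sw (y - t i) ∂(rho μ)) := by
        intro i
        have hNi := nice_sub sw_nice (t i)
        rw [av_int _ _ _ hNi]
        congr 1
        have h4 : ∀ j : ℕ, ∫ x, sw (fr (x + (((j : ℝ) / N : ℝ) : TT)) - t i) ∂μ =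
            ∫ x, sw ((fr x - t i) + j / N) ∂μ := by
          intro j
          refine integral_congr_ae (Eventually.of_forall fun x => ?_)
          simp only
          have e := g_fr (g := fun y => sw (y - t i)) hNi.per (x + (((j : ℝ) / N : ℝ) : TT))
            (fr x + j / N) (by rw [AddCircle.coe_add, coe_fr])
          rw [e]
          congr 1
          ring
        have hmeas : Measurable fun y : ℝ => sw (N * (y - t i)) :=
          sw_meas.comp ((measurable_id.sub_const _).const_mul _)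
        have h5 : ∫ y, sw (N * (y - t i)) ∂(rho μ) = ∑ j ∈ range N, ∫ x, sw ((fr x - t i) + j / N) ∂μ := by
          rw [int_rho _ hmeas, ← integral_finsetSum]
          · refine integral_congr_ae (Eventually.of_forall fun x => ?_)
            simp only
            rw [hermite N hN1]
          · intro j _
            refine Integrable.of_bound (C := 1 / 2) ?_ (Eventually.of_forall fun x => ?_)
            · exact (sw_meas.comp ((fr_meas.sub_const _).add_const _)).aestronglyMeasurable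
            · rw [Real.norm_eq_abs]; exact sw_abs _
        have h0 : (0 : ℕ) ∈ range N := mem_range.2 (by omega)
        rw [h5, ← add_sum_erase _ _ h0, int_rho _ hNi.m]
        simp only [Nat.cast_zero, zero_div, add_zero]
        rw [add_sub_cancel_left]
        exact sum_congr rfl fun j _ => h4 j
      have hcard : 0 < ((((range N).erase 0).card : ℕ) : ℝ)⁻¹ := by
        rw [inv_pos]
        have : 0 < ((range N).erase 0).card := by
          rw [card_erase_of_mem (mem_range.2 (by omega)), card_range]; omega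
        exact_mod_cast this
      have h4 : ∑ i ∈ S, w i * ∫ y, sw (y - t i) ∂(rho (av ((range N).erase 0) (fun j : ℕ => (((j : ℝ) / N : ℝ) : TT)) μ)) =
          ((((range N).erase 0).card : ℕ) : ℝ)⁻¹ *
            (∑ i ∈ S, w i * ∫ y, sw (N * (y - t i)) ∂(rho μ) - Te S w t μ) := by
        unfold Te
        rw [← sum_sub_distrib, mul_sum]
        refine sum_congr rfl fun i _ => ?_
        rw [h3]; ring
      rw [h4] at h2
      have h5 := nonneg_of_mul_nonneg_right h2 hcard
      linarith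
  -- averaging
  obtain ⟨M, hM⟩ : ∃ M, M = p * q := ⟨_, rfl⟩
  have hM1 : 1 ≤ M := by rw [hM]; exact Nat.one_le_iff_ne_zero.2 (Nat.mul_ne_zero hp.ne_zero hq.ne_zero)
  have hco : ∀ n : ℕ, Nat.Coprime (1 + M * n) p ∧ Nat.Coprime (1 + M * n) q := by
    intro n
    rw [hM]
    constructor
    · have : 1 + p * q * n = 1 + p * (q * n) := by ring
      rw [this, Nat.coprime_add_mul_left_left]
      exact Nat.coprime_one_left _
    · have : 1 + p * q * n = 1 + q * (p * n) := by ring
      rw [this, Nat.coprime_add_mul_left_left]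
      exact Nat.coprime_one_left _
  have h2 : ∀ X : ℕ, 1 ≤ X → Te S w t μ ≤
      ∑ i ∈ S, w i * ∫ y, (∑ n ∈ range X, sw ((1 + M * (n : ℝ)) * (y - t i))) / X ∂(rho μ) := by
    intro X hX
    have hX0 : (0 : ℝ) < X := by exact_mod_cast hX
    have h3 : ∑ n ∈ range X, Te S w t μ ≤
        ∑ n ∈ range X, ∑ i ∈ S, w i * ∫ y, sw (((1 + M * n : ℕ) : ℝ) * (y - t i)) ∂(rho μ) :=
      sum_le_sum fun n _ => h1 (1 + M * n) (by omega) (hco n).1 (hco n).2
    rw [sum_const, card_range, nsmul_eq_mul, sum_comm] at h3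
    have h4 : ∀ i, ∫ y, (∑ n ∈ range X, sw ((1 + M * (n : ℝ)) * (y - t i))) / X ∂(rho μ) =
        (∑ n ∈ range X, ∫ y, sw (((1 + M * n : ℕ) : ℝ) * (y - t i)) ∂(rho μ)) / X := by
      intro i
      rw [integral_div, integral_finsetSum]
      · congr 1
        refine sum_congr rfl fun n _ => ?_
        push_cast
        rfl
      · intro n _
        refine Integrable.of_bound (C := 1 / 2) ?_ (Eventually.of_forall fun x => ?_)
        · exact (sw_meas.comp ((measurable_id.sub_const _).const_mul _)).aestronglyMeasurable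
        · rw [Real.norm_eq_abs]; exact sw_abs _
    simp_rw [h4]
    have h5 : ∑ i ∈ S, w i * ((∑ n ∈ range X, ∫ y, sw (((1 + M * n : ℕ) : ℝ) * (y - t i)) ∂(rho μ)) / X) =
        (∑ i ∈ S, ∑ n ∈ range X, w i * ∫ y, sw (((1 + M * n : ℕ) : ℝ) * (y - t i)) ∂(rho μ)) / X := by
      rw [sum_div]
      refine sum_congr rfl fun i _ => ?_
      rw [← mul_sum]
      ring
    rw [h5, le_div_iff₀ hX0]
    linarith
  -- the limit
  have h3 : ∀ i, Tendsto (fun X : ℕ => ∫ y, (∑ n ∈ range X, sw ((1 + M * (n : ℝ)) * (y - t i))) / X ∂(rho μ))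
      atTop (𝓝 0) := by
    intro i
    have h4 : ∀ᵐ y ∂(rho μ), Irrational (y - t i) := by
      rw [ae_iff]
      have hset : {y : ℝ | ¬ Irrational (y - t i)} = Set.range (fun r : ℚ => (r : ℝ) + t i) := by
        ext y
        simp only [Irrational, not_not, Set.mem_range, Set.mem_ofPred_eq]
        constructor
        · rintro ⟨r, hr⟩; exact ⟨r, by rw [hr]; ring⟩
        · rintro ⟨r, hr⟩; exact ⟨r, by rw [← hr]; ring⟩
      rw [hset]
      have hc : (Set.range (fun r : ℚ => (r : ℝ) + t i)).Countable := Set.countable_range _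
      rw [rho, Measure.map_apply fr_meas hc.measurableSet]
      have hinj : Function.Injective fr := by
        intro x y hxy
        rw [← coe_fr x, ← coe_fr y, hxy]
      have hc2 := hc.preimage hinj
      have : NullSingletonClass μ := ⟨fun x => hμ.atomless x⟩
      exact hc2.measure_zero μ
    have h5 := tendsto_integral_of_dominated_convergence (μ := rho μ) (F := fun (X : ℕ) y =>
      (∑ n ∈ range X, sw ((1 + M * (n : ℝ)) * (y - t i))) / X) (f := fun _ => 0) (fun _ => 1 / 2)
      (fun X => (Measurable.div_const (Finset.measurable_sum _ fun n _ =>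
        (sw_meas.comp ((measurable_id.sub_const _).const_mul _))) _).aestronglyMeasurable)
      (integrable_const _) (fun X => Eventually.of_forall fun y => ?_) ?_
    · simpa using h5
    · rcases Nat.eq_zero_or_pos X with h0 | h0
      · subst h0; simp
      · have hX : (0 : ℝ) < X := by exact_mod_cast h0
        rw [Real.norm_eq_abs, abs_div, abs_of_pos hX, div_le_iff₀ hX]
        refine (abs_sum_le_sum_abs _ _).trans ((sum_le_sum fun n _ => sw_abs _).trans ?_)
        rw [sum_const, card_range, nsmul_eq_mul, mul_comm]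
    · filter_upwards [h4] with y hy
      exact mean_sw M hM1 _ hy
  have h4 := tendsto_finsetSum S fun i _ => (h3 i).const_mul (w i)
  simp only [mul_zero, sum_const_zero] at h4
  exact ge_of_tendsto h4 (eventually_atTop.2 ⟨1, fun X hX => h2 X hX⟩)

end Q190.OA
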