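import Pool.Agent.Q190.OA.G

/-! # Twisting by the quadratic residues -/

set_option autoImplicit false

namespace Q190.OA

open Finset Filter Topology MeasureTheory
open Q241.FP (TT c dil lift Ok Inv sec)

section field

variable {N : ℕ} [Fact N.Prime]

/-- the nonzero squares -/
noncomputable def QR (N : ℕ) [Fact N.Prime] : Finset (ZMod N) := by
  classical
  exact univ.filter fun j => j ≠ 0 ∧ IsSquare j

lemma mem_QR (j : ZMod N) : j ∈ QR N ↔ j ≠ 0 ∧ IsSquare j := by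
  unfold QR; simp

lemma fourier_tac (n : ℤ) (j : ZMod N) : (fourier n (ZMod.toAddCircle j) : ℂ) = ZMod.stdAddChar ((n : ZMod N) * j) := by
  have h1 : n • ZMod.toAddCircle j = ZMod.toAddCircle ((n : ZMod N) * j) := by
    rw [← map_zsmul, zsmul_eq_mul]
  rw [fourier_apply, h1]
  rfl

lemma QR_mul {s : ZMod N} (hs0 : s ≠ 0) (hs : IsSquare s) (f : ZMod N → ℂ) :
    ∑ j ∈ QR N, f (s * j) = ∑ j ∈ QR N, f j := by
  refine sum_bij (fun j _ => s * j) ?_ ?_ ?_ ?_
  · intro j hj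
    rw [mem_QR] at hj ⊢
    exact ⟨mul_ne_zero hs0 hj.1, hs.mul hj.2⟩
  · intro a _ b _ hab
    exact mul_left_cancel₀ hs0 hab
  · intro b hb
    rw [mem_QR] at hb
    refine ⟨s⁻¹ * b, ?_, ?_⟩
    · rw [mem_QR]
      exact ⟨mul_ne_zero (inv_ne_zero hs0) hb.1, hs.inv.mul hb.2⟩
    · rw [← mul_assoc, mul_inv_cancel₀ hs0, one_mul]
  · intro j _; rfl

lemma im_ne (hN : N % 4 = 3) (m : ZMod N) (hm : m ≠ 0) :
    (∑ j ∈ QR N, (ZMod.stdAddChar (m * j) : ℂ)).im ≠ 0 := by
  classical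
  have hN2 : N ≠ 2 := by rintro rfl; omega
  have hchar : ringChar (ZMod N) ≠ 2 := by
    rw [ZMod.ringChar_zmod_n]; exact hN2
  obtain ⟨χ, hχ⟩ : ∃ χ : MulChar (ZMod N) ℂ, χ = (quadraticChar (ZMod N)).ringHomComp (Int.castRingHom ℂ) :=
    ⟨_, rfl⟩
  have hχ1 : χ ≠ 1 := by
    rw [hχ]
    exact (MulChar.ringHomComp_ne_one_iff (RingHom.injective_int _)).mpr (quadraticChar_ne_one hchar)
  have hχ2 : χ.IsQuadratic := by
    rw [hχ]; exact (quadraticChar_isQuadratic (ZMod N)).comp _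
  have hψ : (ZMod.stdAddChar (N := N)).IsPrimitive := ZMod.isPrimitive_stdAddChar N
  have hneg : ¬ IsSquare (-1 : ZMod N) := by
    rw [ZMod.exists_sq_eq_neg_one_iff]; simpa using hN
  have hsq := gaussSum_sq hχ1 hχ2 hψ
  have hshift := gaussSum_mulShift χ (ZMod.stdAddChar (N := N)) (Units.mk0 m hm)
  have hne : gaussSum χ (AddChar.mulShift (ZMod.stdAddChar (N := N)) m) ≠ 0 := by
    intro h0
    rw [Units.val_mk0, h0, mul_zero] at hshift
    rw [← hshift] at hsq
    have h1 : χ (-1) = -1 := by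
      rw [hχ, MulChar.ringHomComp_apply, (quadraticChar_neg_one_iff_not_isSquare).2 hneg]
      simp
    rw [h1, ZMod.card] at hsq
    have h2 : (N : ℂ) ≠ 0 := by exact_mod_cast (Fact.out : N.Prime).ne_zero
    apply h2
    have : (0 : ℂ) ^ 2 = 0 := by norm_num
    rw [this] at hsq
    linear_combination hsq
  intro him
  apply hne
  obtain ⟨f, hf⟩ : ∃ f : ZMod N → ℂ, f = fun j => (ZMod.stdAddChar (m * j) : ℂ) := ⟨_, rfl⟩
  have hconj : ∀ j, f (-j) = (starRingEnd ℂ) (f j) := by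
    intro j
    rw [hf]
    simp only
    rw [mul_neg, AddChar.map_neg_eq_conj]
  have h1 : gaussSum χ (AddChar.mulShift (ZMod.stdAddChar (N := N)) m) =
      ∑ j ∈ QR N, f j - ∑ j ∈ QR N, f (-j) := by
    unfold gaussSum
    have h2 : ∀ j : ZMod N, χ j * (AddChar.mulShift (ZMod.stdAddChar (N := N)) m) j =
        (if j ∈ QR N then f j else 0) - (if -j ∈ QR N then f j else 0) := by
      intro j
      rw [AddChar.mulShift_apply, hf]
      simp only
      have h3 : -j ∈ QR N ↔ j ≠ 0 ∧ ¬ IsSquare j := by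
        rw [mem_QR, neg_ne_zero]
        constructor
        · rintro ⟨h4, h5⟩
          refine ⟨h4, fun h6 => hneg ?_⟩
          have h7 : (-1 : ZMod N) = (-j) * j⁻¹ := by field_simp
          rw [h7]
          exact h5.mul h6.inv
        · rintro ⟨h4, h5⟩
          refine ⟨h4, ?_⟩
          have h6 := (quadraticChar_neg_one_iff_not_isSquare (F := ZMod N)).2 h5
          have h7 := (quadraticChar_neg_one_iff_not_isSquare (F := ZMod N)).2 hneg
          rw [← quadraticChar_one_iff_isSquare (neg_ne_zero.2 h4)]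
          have h8 : -j = (-1) * j := by ring
          rw [h8, map_mul, h6, h7]
          norm_num
      rw [hχ, MulChar.ringHomComp_apply]
      by_cases h4 : j = 0
      · subst h4
        rw [if_neg (by rw [mem_QR]; simp), if_neg (by rw [h3]; simp)]
        simp
      · by_cases h5 : IsSquare j
        · rw [if_pos ((mem_QR j).2 ⟨h4, h5⟩), if_neg (fun h6 => (h3.1 h6).2 h5),
            (quadraticChar_one_iff_isSquare h4).2 h5]
          simp
        · rw [if_neg (fun h6 => h5 ((mem_QR j).1 h6).2), if_pos (h3.2 ⟨h4, h5⟩),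
            (quadraticChar_neg_one_iff_not_isSquare).2 h5]
          simp
    rw [sum_congr rfl fun j _ => h2 j, sum_sub_distrib, sum_ite_mem, univ_inter]
    congr 1
    rw [← Equiv.sum_comp (Equiv.neg (ZMod N))]
    simp only [Equiv.neg_apply, neg_neg]
    rw [sum_ite_mem, univ_inter]
  rw [h1]
  simp_rw [hconj]
  rw [← map_sum]
  have h2 : (∑ j ∈ QR N, f j).im = 0 := by rw [hf]; exact him
  rw [Complex.conj_eq_iff_im.2 h2, sub_self]

end field

/-- primes with the required residue symbols -/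
lemma exists_prime (p q : ℕ) (hp : p.Prime) (hq : q.Prime) (m : ℕ) :
    ∃ N : ℕ, ∃ _ : Fact N.Prime, m < N ∧ N % 4 = 3 ∧ (p : ZMod N) ≠ 0 ∧ IsSquare (p : ZMod N) ∧
      (q : ZMod N) ≠ 0 ∧ IsSquare (q : ZMod N) := by
  have : NeZero (8 * p * q) := ⟨Nat.mul_ne_zero (Nat.mul_ne_zero (by norm_num) hp.ne_zero) hq.ne_zero⟩
  obtain ⟨N, hNm, hN, hNeq⟩ := Nat.forall_exists_prime_gt_and_eq_mod (q := 8 * p * q)
    (a := (-1 : ZMod (8 * p * q))) (isUnit_one.neg) (m + p + q + 8)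
  have hF : Fact N.Prime := ⟨hN⟩
  have h1 : 8 * p * q ∣ N + 1 := by
    have : ((N + 1 : ℕ) : ZMod (8 * p * q)) = 0 := by
      push_cast; rw [hNeq]; ring
    exact (ZMod.natCast_eq_zero_iff _ _).1 this
  have h8 : 8 ∣ N + 1 := ((Dvd.intro _ (by ring : 8 * (p * q) = 8 * p * q))).trans h1
  have key : ∀ r : ℕ, r.Prime → r < N → r ∣ N + 1 → (r : ZMod N) ≠ 0 ∧ IsSquare (r : ZMod N) := by
    intro r hr hrN hdvd
    have hr0 : (r : ZMod N) ≠ 0 := by
      rw [Ne, ZMod.natCast_eq_zero_iff]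
      intro h2
      exact absurd (Nat.le_of_dvd hr.pos h2) (by omega)
    refine ⟨hr0, ?_⟩
    have hFr : Fact r.Prime := ⟨hr⟩
    rcases hr.eq_two_or_odd with h2 | h2
    · subst h2
      have := (ZMod.exists_sq_eq_two_iff (p := N) (by omega)).2 (Or.inr (by omega))
      exact_mod_cast this
    · have hN1 : (N : ZMod r) = -1 := by
        have : ((N + 1 : ℕ) : ZMod r) = 0 := (ZMod.natCast_eq_zero_iff _ _).2 hdvd
        push_cast at this
        exact eq_neg_of_add_eq_zero_left this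
      rcases (by omega : r % 4 = 1 ∨ r % 4 = 3) with h3 | h3
      · have h4 := (ZMod.exists_sq_eq_prime_iff_of_mod_four_eq_one (p := r) (q := N) h3 (by omega))
        rw [hN1] at h4
        exact h4.1 (ZMod.exists_sq_eq_neg_one_iff.2 (by omega))
      · have h4 := (ZMod.exists_sq_eq_prime_iff_of_mod_four_eq_three (p := N) (q := r) (by omega) h3 (by omega))
        rw [hN1] at h4
        refine h4.2 ?_
        rw [ZMod.exists_sq_eq_neg_one_iff]
        omega
  have hkp := key p hp (by omega) ((Dvd.intro _ (by ring : p * (8 * q) = 8 * p * q)).trans h1)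
  have hkq := key q hq (by omega) ((Dvd.intro _ (by ring : q * (8 * p) = 8 * p * q)).trans h1)
  exact ⟨N, hF, by omega, by omega, hkp.1, hkp.2, hkq.1, hkq.2⟩

theorem twist {p q : ℕ} (hp : p.Prime) (hq : q.Prime) (m : ℕ) (hm : 1 ≤ m) :
    ∃ η : ℂ, η.im ≠ 0 ∧ ∀ μ : Measure TT, Ok {p, q} μ → ∃ μ' : Measure TT, Ok {p, q} μ' ∧
      c μ' m = c μ m * η := by
  obtain ⟨N, hF, hmN, hN4, hp0, hps, hq0, hqs⟩ := exists_prime p q hp hq m
  have hm0 : ((m : ℤ) : ZMod N) ≠ 0 := by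
    rw [Int.cast_natCast, Ne, ZMod.natCast_eq_zero_iff]
    intro h2
    exact absurd (Nat.le_of_dvd (by omega) h2) (by omega)
  have hne : (QR N).Nonempty := ⟨1, (mem_QR 1).2 ⟨one_ne_zero, IsSquare.one⟩⟩
  have hsum : ∀ n : ℤ, ∑ j ∈ QR N, (fourier n (ZMod.toAddCircle j) : ℂ) =
      ∑ j ∈ QR N, (ZMod.stdAddChar ((n : ZMod N) * j) : ℂ) := fun n =>
    sum_congr rfl fun j _ => fourier_tac n j
  refine ⟨((QR N).card : ℂ)⁻¹ * ∑ j ∈ QR N, (fourier (m : ℤ) (ZMod.toAddCircle j) : ℂ), ?_, fun μ hμ => ?_⟩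
  · rw [hsum]
    have h1 := im_ne hN4 _ hm0
    have h2 : (((QR N).card : ℂ)⁻¹ * ∑ j ∈ QR N, (ZMod.stdAddChar (((m : ℤ) : ZMod N) * j) : ℂ)).im =
        ((QR N).card : ℝ)⁻¹ * (∑ j ∈ QR N, (ZMod.stdAddChar (((m : ℤ) : ZMod N) * j) : ℂ)).im := by
      rw [← Complex.im_ofReal_mul]
      push_cast
      rfl
    rw [h2]
    refine mul_ne_zero (inv_ne_zero ?_) h1
    exact_mod_cast hne.card_pos.ne'
  · have := hμ.prob
    refine ⟨av (QR N) (fun j => ZMod.toAddCircle j) μ, av_ok hne _ hμ ?_, c_av _ _ _ _⟩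
    intro s hs n
    rw [hsum, hsum]
    have h3 : (s : ZMod N) ≠ 0 ∧ IsSquare (s : ZMod N) := by
      rw [Finset.mem_insert, Finset.mem_singleton] at hs
      rcases hs with rfl | rfl
      · exact ⟨hp0, hps⟩
      · exact ⟨hq0, hqs⟩
    rw [← QR_mul h3.1 h3.2 (fun j => (ZMod.stdAddChar ((n : ZMod N) * j) : ℂ))]
    refine sum_congr rfl fun j _ => ?_
    congr 1
    push_cast
    ring

end Q190.OA
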