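import Pool.Agent.Q190.OA.H

/-! # One test function suffices -/

set_option autoImplicit false

namespace Q190.OA

open Finset Filter Topology MeasureTheory
open Q190.OB (sw sw_abs sw_add_int)
open Q241.FP (TT c dil lift Ok Inv sec)

theorem main {ι : Type*} {p q : ℕ} (hp : p.Prime) (hq : q.Prime) (hpq : p ≠ q) (S : Finset ι)
    (w t : ι → ℝ) (ν : Measure TT) [IsProbabilityMeasure ν]
    (hνp : MeasurePreserving (fun x : TT => p • x) ν ν) (hνq : MeasurePreserving (fun x : TT => q • x) ν ν)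
    (hν : Te S w t ν ≠ 0) (H : ∀ μ : Measure TT, Ok {p, q} μ → 0 ≤ Te S w t μ)
    (μ : Measure TT) (hμ : Ok {p, q} μ) : μ = volume := by
  have H0 := fun μ hμ => eq_of_ge hp hq S w t H μ hμ
  have h1 : ∃ n : ℕ, 1 ≤ n ∧ ¬ p ∣ n ∧ ¬ q ∣ n ∧ Rr p q S w t n ≠ 0 := by
    by_contra hcon
    push Not at hcon
    apply hν
    exact cob p q hp hq hpq S w t (fun n h1 h2 h3 => hcon n h1 h2 h3) (rho ν) (inv1_of hνp) (inv1_of hνq)
  obtain ⟨n, hn1, hnp, hnq, hn⟩ := h1
  by_contra hne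
  obtain ⟨m, hm, hmc⟩ := hμ.exists_coeff hne
  obtain ⟨η, hη, htw⟩ := twist hp hq m hm
  obtain ⟨μ', hμ', hc'⟩ := htw μ hμ
  have h2 := im_zero hp hq hpq S w t H0 n hn1 hnp hnq μ hμ m hm
  have h3 := im_zero hp hq hpq S w t H0 n hn1 hnp hnq μ' hμ' m hm
  rw [hc'] at h3
  obtain ⟨z, hz⟩ : ∃ z : ℂ, z = c μ m * Rr p q S w t n := ⟨_, rfl⟩
  have h4 : c μ m * η * Rr p q S w t n = z * η := by rw [hz]; ring
  rw [h4, Complex.mul_im] at h3
  rw [← hz] at h2
  rw [h2, zero_mul, add_zero] at h3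
  have h5 : z.re = 0 := (mul_eq_zero.1 h3).resolve_right hη
  have h6 : z = 0 := Complex.ext h5 h2
  rw [hz] at h6
  rcases mul_eq_zero.1 h6 with h7 | h7
  · exact hmc h7
  · exact hn h7

/-- the arc from `a` to `b` -/
def arc (a b : ℝ) : Set TT := (fun y : ℝ => (y : TT)) '' Set.Ico a b

lemma mem_arc (a b : ℝ) (x : TT) : x ∈ arc a b ↔ ∃ n : ℤ, a ≤ fr x + n ∧ fr x + n < b := by
  unfold arc
  constructor
  · rintro ⟨y, hy, hyx⟩
    obtain ⟨n, hn⟩ := fr_eq x y hyx
    refine ⟨-n, ?_⟩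
    push_cast
    rw [hn]
    constructor <;> linarith [hy.1, hy.2]
  · rintro ⟨n, h1, h2⟩
    refine ⟨fr x + n, ⟨h1, h2⟩, ?_⟩
    simp only
    rw [AddCircle.coe_add, coe_fr]
    have : ((n : ℝ) : TT) = 0 := by
      have h3 := AddCircle.coe_eq_zero_iff (p := (1 : ℝ)) (x := (n : ℝ))
      exact h3.2 ⟨n, by simp⟩
    rw [this, add_zero]

lemma arc_floor (a b : ℝ) (hab : a ≤ b) (hb : b ≤ a + 1) (x : TT) :
    (arc a b).indicator (fun _ => (1 : ℝ)) x = (⌊fr x - a⌋ : ℝ) - (⌊fr x - b⌋ : ℝ) := by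
  have h1 := Int.floor_le (fr x - a)
  have h2 := Int.lt_floor_add_one (fr x - a)
  have h3 := Int.floor_le (fr x - b)
  have h4 := Int.lt_floor_add_one (fr x - b)
  by_cases hx : x ∈ arc a b
  · rw [Set.indicator_of_mem hx]
    obtain ⟨n, h5, h6⟩ := (mem_arc a b x).1 hx
    have h7 : ⌊fr x - b⌋ < -n := by
      rw [Int.floor_lt]; push_cast; linarith
    have h8 : -n ≤ ⌊fr x - a⌋ := by
      rw [Int.le_floor]; push_cast; linarith
    have h9 : ⌊fr x - a⌋ ≤ ⌊fr x - b⌋ + 1 := by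
      have : ⌊fr x - a⌋ < ⌊fr x - b⌋ + 2 := by
        rw [Int.floor_lt]; push_cast; linarith
      omega
    have h10 : ⌊fr x - a⌋ = ⌊fr x - b⌋ + 1 := by omega
    rw [h10]; push_cast; ring
  · rw [Set.indicator_of_notMem hx]
    have h5 : ⌊fr x - b⌋ ≤ ⌊fr x - a⌋ := Int.floor_le_floor (by linarith)
    have h6 : ⌊fr x - a⌋ ≤ ⌊fr x - b⌋ := by
      by_contra hcon
      push Not at hcon
      apply hx
      rw [mem_arc]
      refine ⟨-⌊fr x - a⌋, ?_, ?_⟩
      · push_cast; linarith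
      · push_cast
        have : (⌊fr x - b⌋ : ℝ) + 1 ≤ ⌊fr x - a⌋ := by exact_mod_cast hcon
        linarith
    have h7 : ⌊fr x - a⌋ = ⌊fr x - b⌋ := by omega
    rw [h7]; ring

lemma arc_meas (a b : ℝ) (hab : a ≤ b) (hb : b ≤ a + 1) : MeasurableSet (arc a b) := by
  have h : arc a b = {x | (⌊fr x - a⌋ : ℝ) - (⌊fr x - b⌋ : ℝ) = 1} := by
    ext x
    simp only [Set.mem_ofPred_eq]
    rw [← arc_floor a b hab hb]
    by_cases hx : x ∈ arc a b
    · rw [Set.indicator_of_mem hx]; simp [hx]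
    · rw [Set.indicator_of_notMem hx]; simp [hx]
  rw [h]
  refine measurableSet_eq_fun ?_ measurable_const
  have hc : Measurable fun n : ℤ => (n : ℝ) := measurable_from_top
  exact (hc.comp (Int.measurable_floor.comp (fr_meas.sub_const a))).sub
    (hc.comp (Int.measurable_floor.comp (fr_meas.sub_const b)))

lemma arc_real (μ : Measure TT) [IsProbabilityMeasure μ] (a b : ℝ) (hab : a ≤ b) (hb : b ≤ a + 1) :
    μ.real (arc a b) = (b - a) + (∫ y, sw (y - a) ∂(rho μ) - ∫ y, sw (y - b) ∂(rho μ)) := by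
  have h1 : μ.real (arc a b) = ∫ x, (arc a b).indicator (fun _ => (1 : ℝ)) x ∂μ := by
    rw [integral_indicator (arc_meas a b hab hb)]
    simp
  have hNa := nice_sub sw_nice a
  have hNb := nice_sub sw_nice b
  have hia : Integrable (fun x => sw (fr x - a)) μ :=
    Integrable.of_bound (C := 1 / 2) (hNa.m.comp fr_meas).aestronglyMeasurable
      (Eventually.of_forall fun x => by rw [Real.norm_eq_abs]; exact sw_abs _)
  have hib : Integrable (fun x => sw (fr x - b)) μ :=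
    Integrable.of_bound (C := 1 / 2) (hNb.m.comp fr_meas).aestronglyMeasurable
      (Eventually.of_forall fun x => by rw [Real.norm_eq_abs]; exact sw_abs _)
  have h2 : ∀ x, (arc a b).indicator (fun _ => (1 : ℝ)) x = (b - a) + (sw (fr x - a) - sw (fr x - b)) := by
    intro x
    rw [arc_floor a b hab hb]
    unfold sw
    have h3 := Int.self_sub_floor (fr x - a)
    have h4 := Int.self_sub_floor (fr x - b)
    linarith
  have hs : Integrable (fun x => sw (fr x - a) - sw (fr x - b)) μ := hia.sub hib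
  rw [h1, int_rho _ hNa.m, int_rho _ hNb.m, ← integral_sub hia hib]
  simp_rw [h2]
  rw [integral_add (integrable_const _) hs]
  simp

/-- step functions -/
lemma Te_step (μ : Measure TT) [IsProbabilityMeasure μ] (n : ℕ) (w a b : Fin n → ℝ)
    (h : ∀ i, a i ≤ b i ∧ b i ≤ a i + 1) :
    Te (univ : Finset (Fin n ⊕ Fin n)) (Sum.elim w (fun i => -w i)) (Sum.elim a b) μ =
      ∑ i, w i * μ.real (arc (a i) (b i)) - ∑ i, w i * (b i - a i) := by
  unfold Te
  rw [Fintype.sum_sum_type, ← sum_sub_distrib, ← sum_add_distrib]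
  refine sum_congr rfl fun i _ => ?_
  simp only [Sum.elim_inl, Sum.elim_inr]
  rw [arc_real μ _ _ (h i).1 (h i).2]
  ring

end Q190.OA
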